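import Pool.Agent.Lib.P0c8ca5J.Layer

/-!
# Groups with `O_p(L) = 1` whose normal p'-subgroups are central

`QS E`: `E` is quasi-simple. `MinN V`: `V / Z(L)` is a minimal normal subgroup of `L / Z(L)`.
-/

set_option autoImplicit false

namespace Pool.Agent.Lib.P0c8ca5.Jj

open Subgroup

variable {L : Type*} [Group L]

/-- `E` is quasi-simple: nontrivial, perfect, and every normal subgroup of `E` is central in `E` or
equal to `E` -/
structure QS (E : Subgroup L) : Prop where
  ne : E ≠ ⊥
  perf : ⁅E, E⁆ = E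
  qs : ∀ N : Subgroup L, N ≤ E → E ≤ Subgroup.normalizer (N : Set L) →
    N ≤ Subgroup.centralizer (E : Set L) ∨ N = E

/-- `V / Z` is a minimal normal subgroup of `L / Z`, `Z` the centre of `L` -/
structure MinN (V : Subgroup L) : Prop where
  normal : V.Normal
  lt : Subgroup.center L < V
  min : ∀ W : Subgroup L, W.Normal → Subgroup.center L ≤ W → W ≤ V → W = Subgroup.center L ∨ W = V

/-- `O_p(L) = 1` and every normal subgroup of order prime to `p` is central -/
structure Rd (p : ℕ) (L : Type*) [Group L] : Prop where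
  core : ∀ P : Subgroup L, P.Normal → IsPGroup p P → P = ⊥
  central : ∀ N : Subgroup L, N.Normal → ¬ p ∣ Nat.card N → N ≤ Subgroup.center L

theorem normal_zpowers_of_center {z : L} (hz : z ∈ Subgroup.center L) :
    (Subgroup.zpowers z).Normal := by
  have h1 : Subgroup.zpowers z ≤ Subgroup.center L := by
    rw [Subgroup.zpowers_le]
    exact hz
  exact normal_of_cen h1

theorem norBy_iff {K N : Subgroup L} : NorBy K N ↔ K ≤ Subgroup.normalizer (N : Set L) := by
  constructor
  · intro h g hg
    rw [Subgroup.mem_normalizer_iff]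
    intro x
    constructor
    · exact fun hx => h g hg x hx
    · intro hx
      have := h g⁻¹ (K.inv_mem hg) _ hx
      have e : g⁻¹ * (g * x * g⁻¹) * g⁻¹⁻¹ = x := by group
      rwa [e] at this
  · intro h g hg x hx
    exact (Subgroup.mem_normalizer_iff.1 (h hg) x).1 hx

section

variable {p : ℕ} (hR : Rd p L)
include hR

/-- A central element of `p`-power order is trivial. -/
theorem Rd.eq_one {z : L} (hz : z ∈ Subgroup.center L) {k : ℕ} (hk : z ^ p ^ k = 1) : z = 1 := by
  have h1 := hR.core _ (normal_zpowers_of_center hz) (by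
    rintro ⟨x, hx⟩
    obtain ⟨i, rfl⟩ := Subgroup.mem_zpowers_iff.1 hx
    refine ⟨k, Subtype.ext ?_⟩
    show (z ^ i) ^ p ^ k = 1
    rw [← zpow_natCast, ← zpow_mul, mul_comm, zpow_mul, zpow_natCast, hk, one_zpow])
  exact Subgroup.zpowers_eq_bot.1 h1

/-- The centre is a p'-group. -/
theorem Rd.not_dvd_center [Fact p.Prime] [Finite L] : ¬ p ∣ Nat.card (Subgroup.center L) := by
  intro h
  obtain ⟨x, hx⟩ := exists_prime_orderOf_dvd_card' p h
  have h1 : (x : L) = 1 := hR.eq_one x.2 (k := 1) (by
    have h2 : x ^ p = 1 := by rw [← hx]; exact pow_orderOf_eq_one x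
    have h3 := congrArg Subtype.val h2
    rw [pow_one]
    simpa using h3)
  have h2 : x = 1 := Subtype.ext h1
  rw [h2, orderOf_one] at hx
  exact (Fact.out : p.Prime).one_lt.ne hx

/-- A normal subgroup whose commutators are central is central. -/
theorem Rd.le_center_of_comm [Fact p.Prime] [Finite L] {W : Subgroup L} (hW : W.Normal)
    (hc : ∀ x ∈ W, ∀ y ∈ W, x * y * x⁻¹ * y⁻¹ ∈ Subgroup.center L) :
    W ≤ Subgroup.center L := by
  -- the p-elements commute
  have com : ∀ x ∈ W, ∀ y ∈ W, ∀ k : ℕ, x ^ p ^ k = 1 → x * y = y * x := by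
    intro x hx y hy k hk
    have h1 := hc x hx y hy
    have h2 : ∀ n : ℕ, x ^ n * y * (x ^ n)⁻¹ * y⁻¹ = (x * y * x⁻¹ * y⁻¹) ^ n := by
      intro n
      induction n with
      | zero => simp
      | succ n ih =>
        have h3 := Subgroup.mem_center_iff.1 (Subgroup.pow_mem _ h1 n) x
        calc x ^ (n + 1) * y * (x ^ (n + 1))⁻¹ * y⁻¹
            = x * (x ^ n * y * (x ^ n)⁻¹ * y⁻¹) * (y * x⁻¹ * y⁻¹) := by
              rw [pow_succ']; group
          _ = x * (x * y * x⁻¹ * y⁻¹) ^ n * (y * x⁻¹ * y⁻¹) := by rw [ih]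
          _ = (x * y * x⁻¹ * y⁻¹) ^ n * (x * y * x⁻¹ * y⁻¹) := by rw [h3]; group
          _ = (x * y * x⁻¹ * y⁻¹) ^ (n + 1) := by rw [pow_succ]
    have h3 : (x * y * x⁻¹ * y⁻¹) ^ p ^ k = 1 := by
      rw [← h2, hk]; group
    have h4 := hR.eq_one h1 h3
    calc x * y = x * y * x⁻¹ * y⁻¹ * (y * x) := by group
      _ = y * x := by rw [h4, one_mul]
  let P : Subgroup L :=
    { carrier := {x | x ∈ W ∧ ∃ k : ℕ, x ^ p ^ k = 1}
      mul_mem' := by
        rintro a b ⟨ha, k, hk⟩ ⟨hb, l, hl⟩
        refine ⟨W.mul_mem ha hb, k + l, ?_⟩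
        have h1 : Commute a b := com a ha b hb k hk
        rw [h1.mul_pow, pow_add, pow_mul, hk, one_pow, one_mul, mul_comm, pow_mul, hl, one_pow]
      one_mem' := ⟨W.one_mem, 0, one_pow _⟩
      inv_mem' := by
        rintro a ⟨ha, k, hk⟩
        exact ⟨W.inv_mem ha, k, by rw [inv_pow, hk, inv_one]⟩ }
  have hP : P.Normal := by
    constructor
    rintro x ⟨hx, k, hk⟩ g
    refine ⟨hW.conj_mem x hx g, k, ?_⟩
    rw [conj_pow, hk]
    group
  have hPb : P = ⊥ := hR.core P hP (by
    rintro ⟨x, hx, k, hk⟩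
    exact ⟨k, Subtype.ext hk⟩)
  apply hR.central W hW
  intro h
  obtain ⟨x, hx⟩ := exists_prime_orderOf_dvd_card' p h
  have h1 : (x : L) ∈ P := ⟨x.2, 1, by
    have h2 : x ^ p = 1 := by rw [← hx]; exact pow_orderOf_eq_one x
    have h3 := congrArg Subtype.val h2
    rw [pow_one]
    simpa using h3⟩
  rw [hPb, Subgroup.mem_bot] at h1
  have h2 : x = 1 := Subtype.ext h1
  rw [h2, orderOf_one] at hx
  exact (Fact.out : p.Prime).one_lt.ne hx

/-- A solvable normal subgroup is central. -/
theorem Rd.le_center_of_solvable [Fact p.Prime] [Finite L] {W : Subgroup L} (hW : W.Normal)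
    (hs : Group.IsSolvable W) : W ≤ Subgroup.center L := by
  let D : ℕ → Subgroup L := fun n => (derivedSeries W n).map W.subtype
  have hD : ∀ n, D (n + 1) = ⁅D n, D n⁆ := by
    intro n
    show (derivedSeries W (n + 1)).map W.subtype = _
    rw [derivedSeries_succ, Subgroup.map_commutator]
  have hDn : ∀ n, (D n).Normal := by
    intro n
    induction n with
    | zero =>
      have : D 0 = W := by
        show (derivedSeries W 0).map W.subtype = W
        rw [derivedSeries_zero, ← MonoidHom.range_eq_map, Subgroup.range_subtype]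
      rw [this]; exact hW
    | succ n ih =>
      rw [hD]
      exact Subgroup.commutator_normal _ _
  obtain ⟨n, hn⟩ := hs.solvable
  have key : ∀ i, D (n - i) ≤ Subgroup.center L := by
    intro i
    induction i with
    | zero =>
      show (derivedSeries W (n - 0)).map W.subtype ≤ _
      rw [Nat.sub_zero, hn, Subgroup.map_bot]
      exact bot_le
    | succ i ih =>
      by_cases hi : i < n
      · apply hR.le_center_of_comm (hDn _)
        intro x hx y hy
        have e : n - i = n - (i + 1) + 1 := by omega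
        rw [e, hD] at ih
        exact ih (Subgroup.commutator_mem_commutator hx hy)
      · have e : n - (i + 1) = n - i := by omega
        rw [e]; exact ih
  have h0 := key n
  rw [Nat.sub_self] at h0
  have : D 0 = W := by
    show (derivedSeries W 0).map W.subtype = W
    rw [derivedSeries_zero, ← MonoidHom.range_eq_map, Subgroup.range_subtype]
  rwa [this] at h0

/-- The same if `W / (W ∩ Z)` is solvable. -/
theorem Rd.le_center_of_solvable' [Fact p.Prime] [Finite L] {W : Subgroup L} (hW : W.Normal)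
    (hs : Group.IsSolvable (W ⧸ (Subgroup.center L).subgroupOf W)) : W ≤ Subgroup.center L := by
  apply hR.le_center_of_solvable hW
  have h1 : Group.IsSolvable ((Subgroup.center L).subgroupOf W) := by
    have : ∀ a b : (Subgroup.center L).subgroupOf W, a * b = b * a := by
      rintro ⟨a, ha⟩ ⟨b, hb⟩
      apply Subtype.ext
      apply Subtype.ext
      exact (Subgroup.mem_center_iff.1 (Subgroup.mem_subgroupOf.1 ha) b).symm
    exact Group.isSolvable_of_comm this
  haveI := h1
  haveI := hs
  exact Group.isSolvable_of_ker_le_range ((Subgroup.center L).subgroupOf W).subtype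
    (QuotientGroup.mk' ((Subgroup.center L).subgroupOf W)) (by
      rw [QuotientGroup.ker_mk', Subgroup.range_subtype])

/-- A minimal normal subgroup modulo the centre is nonabelian modulo the centre. -/
theorem MinN.lay [Fact p.Prime] [Finite L] {V : Subgroup L} (h : MinN V) :
    Lay (Subgroup.center L) V := by
  refine ⟨le_rfl, h.normal, h.lt, h.min, ?_⟩
  by_contra hcon
  push Not at hcon
  exact h.lt.not_ge (hR.le_center_of_comm h.normal hcon)

end

/-- `L ≠ Z` has a minimal normal subgroup modulo the centre. -/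
theorem exists_minN [Finite L] (h : Subgroup.center L ≠ ⊤) : ∃ V : Subgroup L, MinN V := by
  have hwf : WellFounded ((· < ·) : Subgroup L → Subgroup L → Prop) := wellFounded_lt
  obtain ⟨V, ⟨h1, h2⟩, hmin⟩ := hwf.has_min {V | V.Normal ∧ Subgroup.center L < V}
    ⟨⊤, inferInstance, lt_top_iff_ne_top.2 h⟩
  refine ⟨V, h1, h2, fun W hW hZW hWV => ?_⟩
  by_contra hcon
  push Not at hcon
  exact hmin W ⟨hW, lt_of_le_of_ne hZW (Ne.symm hcon.1)⟩ (lt_of_le_of_ne hWV hcon.2)

/-- Every normal subgroup strictly above the centre contains a minimal one. -/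
theorem exists_minN_le [Finite L] {W : Subgroup L} (hW : W.Normal) (h : Subgroup.center L < W) :
    ∃ V : Subgroup L, MinN V ∧ V ≤ W := by
  have hwf : WellFounded ((· < ·) : Subgroup L → Subgroup L → Prop) := wellFounded_lt
  obtain ⟨V, ⟨h1, h2, h3⟩, hmin⟩ := hwf.has_min {V | V.Normal ∧ Subgroup.center L < V ∧ V ≤ W}
    ⟨W, hW, h, le_rfl⟩
  refine ⟨V, ⟨h1, h2, fun W' hW' hZW hWV => ?_⟩, h3⟩
  by_contra hcon
  push Not at hcon
  exact hmin W' ⟨hW', lt_of_le_of_ne hZW (Ne.symm hcon.1), hWV.trans h3⟩
    (lt_of_le_of_ne hWV hcon.2)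

end Pool.Agent.Lib.P0c8ca5.Jj
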