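import Pool.Agent.Lib.P0c8ca5J.Dec

/-!
# Commutative groups are p-solvable; almost quasi-simple groups

`AQS L`: `L` has a quasi-simple normal subgroup `E` with `C_L(E) = Z(L)`.
-/

set_option autoImplicit false

namespace Pool.Agent.Lib.P0c8ca5.Jj

open Subgroup Ps

universe u

theorem psolv_of_comm {p : ℕ} [Fact p.Prime] {G : Type*} [Group G] [Finite G]
    (h : ∀ x y : G, x * y = y * x) : PSolv p G := by
  have hp : p.Prime := Fact.out
  let P : Subgroup G :=
    { carrier := {x | ∃ m : ℕ, x ^ p ^ m = 1}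
      one_mem' := ⟨0, one_pow _⟩
      mul_mem' := by
        rintro x y ⟨m, hm⟩ ⟨n, hn⟩
        refine ⟨m + n, ?_⟩
        have hc : Commute x y := h x y
        rw [hc.mul_pow, pow_add, pow_mul, hm, one_pow, one_mul, mul_comm, pow_mul, hn, one_pow]
      inv_mem' := by
        rintro x ⟨m, hm⟩
        exact ⟨m, by rw [inv_pow, hm, inv_one]⟩ }
  have hn : ∀ H : Subgroup G, H.Normal := fun H => ⟨fun x hx g => by
    have e : g * x * g⁻¹ = x := by rw [h g x]; group
    rwa [e]⟩
  refine ⟨2, fun i => if i = 0 then ⊥ else if i = 1 then P else ⊤, rfl, rfl, fun i => hn _, ?_⟩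
  intro i hi
  have hi' : i = 0 ∨ i = 1 := by omega
  rcases hi' with rfl | rfl
  · refine ⟨bot_le, Or.inl ?_⟩
    intro x hx
    obtain ⟨m, hm⟩ := hx
    exact ⟨m, Subgroup.mem_bot.2 hm⟩
  · refine ⟨le_top, Or.inr ?_⟩
    intro x _
    obtain ⟨a, m, hm, hc⟩ := Nat.exists_eq_pow_mul_and_not_dvd (n := Nat.card G)
      Nat.card_pos.ne' p hp.ne_one
    refine ⟨m, hm, a, ?_⟩
    rw [← pow_mul, mul_comm, ← hc]
    exact pow_card_eq_one'

section

variable {L : Type u} [Group L]

theorem psolv_quot_of_comm {p : ℕ} [Fact p.Prime] [Finite L] {N : Subgroup L} [N.Normal]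
    (h : ∀ x y : L, x * y * x⁻¹ * y⁻¹ ∈ N) : PSolv p (L ⧸ N) := by
  apply psolv_of_comm
  intro x y
  obtain ⟨x, rfl⟩ := QuotientGroup.mk_surjective x
  obtain ⟨y, rfl⟩ := QuotientGroup.mk_surjective y
  have h1 : ((x * y * x⁻¹ * y⁻¹ : L) : L ⧸ N) = 1 := (QuotientGroup.eq_one_iff _).2 (h x y)
  have h2 : ((x : L ⧸ N) * y) = ((x * y * x⁻¹ * y⁻¹ : L) : L ⧸ N) * (y * x) := by
    rw [← QuotientGroup.mk_mul, ← QuotientGroup.mk_mul, ← QuotientGroup.mk_mul]
    congr 1
    group
  rw [h2, h1, one_mul]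

/-- `L` is almost quasi-simple: it has a quasi-simple normal subgroup whose centralizer is the centre -/
def AQS (L : Type*) [Group L] : Prop :=
  ∃ E : Subgroup L, E.Normal ∧ QS E ∧ Subgroup.centralizer (E : Set L) = Subgroup.center L

/-- `L` has a component `E` such that `N(E) / E C(E)` is not p-solvable -/
def Exo (p : ℕ) (L : Type*) [Group L] : Prop :=
  ∃ E : Subgroup L, QS E ∧
    (∀ g : L, cg g E = E ∨ ∀ x ∈ cg g E, ∀ y ∈ E, x * y = y * x) ∧
    ¬ PSolv p (sec (Subgroup.normalizer (E : Set L)) (E ⊔ Subgroup.centralizer (E : Set L)))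

variable {p : ℕ} [Fact p.Prime] [Finite L] (hR : Rd p L) {V : Subgroup L} (hV : MinN V)
include hR hV

/-- if `C(V) = Z` and `L / Ker E` is commutative then `L` is almost quasi-simple or has an exotic
component or `L / V` is p-solvable and `E` is not normal -/
theorem MinN.trichotomy (hC : Subgroup.centralizer (V : Set L) = Subgroup.center L)
    {E : Subgroup L} (hE : Cmp V E) (hab : ∀ x y : L, x * y * x⁻¹ * y⁻¹ ∈ Ker E) [V.Normal] :
    AQS L ∨ Exo p L ∨ (¬ E.Normal ∧ PSolv p (L ⧸ V)) := by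
  by_cases hn : E.Normal
  · left
    refine ⟨E, hn, hE.qs, ?_⟩
    rw [hV.centralizer_of_normal hR hE hn, hC]
  · right
    by_cases hs : PSolv p (sec (Subgroup.normalizer (E : Set L))
      (E ⊔ Subgroup.centralizer (E : Set L)))
    · right
      have hK := Ker.normal E
      exact ⟨hn, hV.psolv hR hC hE hs (psolv_quot_of_comm hab)⟩
    · left
      exact ⟨E, hE.qs, fun g => hV.commute_of_ne hR hE g, hs⟩

end

end Pool.Agent.Lib.P0c8ca5.Jj
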