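import Pool.Agent.Lib.P0c8ca5J.Kern

/-!
# Central products modulo a central p'-subgroup

`Dec p Z V W`: `V` is the product of the pairwise commuting subgroups `W i`, a direct product modulo the
central `p'`-subgroup `Z`.
`WB E H c`, for a coset `c` of `H`: the product of the centre and the `cg g E` with `g ∈ c`.
-/

set_option autoImplicit false

namespace Pool.Agent.Lib.P0c8ca5.Jj

open Subgroup

/-- `V / Z` is the direct product of the `W i / Z`, the `W i` commute, `Z` is a central p'-subgroup -/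
structure Dec (p : ℕ) {A : Type*} [Group A] (Z V : Subgroup A) {ι : Type*}
    (W : ι → Subgroup A) : Prop where
  le : ∀ i, Z ≤ W i
  le' : ∀ i, W i ≤ V
  sup : (⨆ i, W i) = V
  comm : ∀ i j, i ≠ j → ∀ x ∈ W i, ∀ y ∈ W j, x * y = y * x
  indep : ∀ i, W i ⊓ (⨆ (j) (_ : j ≠ i), W j) ≤ Z
  cen : Z ≤ Subgroup.center A
  pr : ¬ p ∣ Nat.card Z

theorem commute_iSup {A : Type*} [Group A] {ι κ : Sort*} {S : ι → Subgroup A} {T : κ → Subgroup A}
    (h : ∀ i j, ∀ x ∈ S i, ∀ y ∈ T j, x * y = y * x) :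
    ∀ x ∈ ⨆ i, S i, ∀ y ∈ ⨆ j, T j, x * y = y * x := by
  have h1 : (⨆ i, S i) ≤ Subgroup.centralizer ((⨆ j, T j : Subgroup A) : Set A) := by
    refine iSup_le fun i => ?_
    rw [Subgroup.le_centralizer_iff]
    refine iSup_le fun j y hy => ?_
    rw [Subgroup.mem_centralizer_iff]
    exact fun x hx => h i j x hx y hy
  intro x hx y hy
  exact (Subgroup.mem_centralizer_iff.1 (h1 hx) y hy).symm

theorem commute_sup {A : Type*} [Group A] {S S' T T' : Subgroup A}
    (h1 : ∀ x ∈ S, ∀ y ∈ T, x * y = y * x) (h2 : ∀ x ∈ S, ∀ y ∈ T', x * y = y * x)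
    (h3 : ∀ x ∈ S', ∀ y ∈ T, x * y = y * x) (h4 : ∀ x ∈ S', ∀ y ∈ T', x * y = y * x) :
    ∀ x ∈ S ⊔ S', ∀ y ∈ T ⊔ T', x * y = y * x := by
  have h5 : S ⊔ S' ≤ Subgroup.centralizer ((T ⊔ T' : Subgroup A) : Set A) := by
    refine sup_le ?_ ?_
    · rw [Subgroup.le_centralizer_iff]
      refine sup_le (fun y hy => ?_) fun y hy => ?_
      · rw [Subgroup.mem_centralizer_iff]
        exact fun x hx => h1 x hx y hy
      · rw [Subgroup.mem_centralizer_iff]
        exact fun x hx => h2 x hx y hy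
    · rw [Subgroup.le_centralizer_iff]
      refine sup_le (fun y hy => ?_) fun y hy => ?_
      · rw [Subgroup.mem_centralizer_iff]
        exact fun x hx => h3 x hx y hy
      · rw [Subgroup.mem_centralizer_iff]
        exact fun x hx => h4 x hx y hy
  intro x hx y hy
  exact (Subgroup.mem_centralizer_iff.1 (h5 hx) y hy).symm

namespace Dec

variable {p : ℕ} {A : Type*} [Group A] {Z V : Subgroup A} {ι : Type*} {W : ι → Subgroup A}

theorem zcomm (h : Dec p Z V W) {z : A} (hz : z ∈ Z) (x : A) : z * x = x * z :=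
  (Subgroup.mem_center_iff.1 (h.cen hz) x).symm

/-- the `W i` are normal in `V` -/
theorem norBy (h : Dec p Z V W) (i : ι) : NorBy V (W i) := by
  rw [norBy_iff, ← h.sup]
  refine iSup_le fun j => ?_
  by_cases hij : j = i
  · rw [hij]; exact Subgroup.le_normalizer
  · rw [← norBy_iff]
    intro g hg x hx
    have e : g * x * g⁻¹ = x := by
      rw [h.comm j i hij g hg x hx]; group
    rwa [e]

/-- reindexing -/
theorem reindex (h : Dec p Z V W) {κ : Type*} (e : κ ≃ ι) : Dec p Z V (fun k => W (e k)) := by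
  refine ⟨fun k => h.le _, fun k => h.le' _, ?_, ?_, ?_, h.cen, h.pr⟩
  · rw [← h.sup]
    exact e.iSup_comp (g := W)
  · exact fun i j hij => h.comm _ _ fun h' => hij (e.injective h')
  · intro k
    refine le_trans (inf_le_inf_left _ ?_) (h.indep (e k))
    refine iSup_le fun j => iSup_le fun hj => ?_
    exact le_iSup₂_of_le (e j) (fun h' => hj (e.injective h')) le_rfl

/-- independence for a finite set of indices -/
theorem mem_of_finset [DecidableEq ι] (h : Dec p Z V W) (S : Finset ι) :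
    ∀ x : A, x ∈ Z ⊔ (⨆ (i) (_ : i ∈ S), W i) → x ∈ Z ⊔ (⨆ (i) (_ : i ∉ S), W i) → x ∈ Z := by
  induction S using Finset.induction_on with
  | empty =>
    intro x hx _
    have : Z ⊔ (⨆ (i) (_ : i ∈ (∅ : Finset ι)), W i) ≤ Z := by
      refine sup_le le_rfl (iSup_le fun i => iSup_le fun hi => ?_)
      exact absurd hi (Finset.notMem_empty i)
    exact this hx
  | insert i S hi ih =>
    intro x hx hx'
    have h1 : Z ⊔ (⨆ (j) (_ : j ∈ insert i S), W j) ≤ W i ⊔ (Z ⊔ (⨆ (j) (_ : j ∈ S), W j)) := by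
      refine sup_le (le_sup_left.trans le_sup_right) (iSup_le fun j => iSup_le fun hj => ?_)
      rcases Finset.mem_insert.1 hj with rfl | hj
      · exact le_sup_left
      · exact (le_iSup₂_of_le (f := fun j (_ : j ∈ S) => W j) j hj le_rfl).trans
          (le_sup_right.trans le_sup_right)
    obtain ⟨w, hw, y, hy, rfl⟩ := mem_sup_of_commute (P := W i)
      (R := Z ⊔ (⨆ (j) (_ : j ∈ S), W j)) (by
        intro a ha b hb
        have h2 : Z ⊔ (⨆ (j) (_ : j ∈ S), W j) ≤ Subgroup.centralizer {a} := by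
          refine sup_le (fun z hz => ?_) (iSup_le fun j => iSup_le fun hj z hz => ?_)
          · rw [Subgroup.mem_centralizer_iff]
            rintro v hv
            rw [Set.mem_singleton_iff] at hv
            rw [hv]
            exact (h.zcomm hz a).symm
          · rw [Subgroup.mem_centralizer_iff]
            rintro v hv
            rw [Set.mem_singleton_iff] at hv
            rw [hv]
            exact h.comm i j (fun hij => hi (hij ▸ hj)) a ha z hz
        exact (Subgroup.mem_centralizer_iff.1 (h2 hb) a rfl).symm) x (h1 hx)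
    -- `w = x y⁻¹` is a product of the others
    have h3 : (⨆ (j) (_ : j ∈ S), W j) ≤ ⨆ (j) (_ : j ≠ i), W j := by
      refine iSup_le fun j => iSup_le fun hj => ?_
      exact le_iSup₂_of_le j (fun hij => hi (hij ▸ hj)) le_rfl
    have h4 : (⨆ (j) (_ : j ∉ insert i S), W j) ≤ ⨆ (j) (_ : j ≠ i), W j := by
      refine iSup_le fun j => iSup_le fun hj => ?_
      exact le_iSup₂_of_le j (fun hij => hj (hij ▸ Finset.mem_insert_self i S)) le_rfl
    have hyT : y ∈ Z ⊔ (⨆ (j) (_ : j ≠ i), W j) := (sup_le_sup le_rfl h3) hy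
    have hxT : w * y ∈ Z ⊔ (⨆ (j) (_ : j ≠ i), W j) := (sup_le_sup le_rfl h4) hx'
    have hwT : w ∈ Z ⊔ (⨆ (j) (_ : j ≠ i), W j) := by
      have e : w = w * y * y⁻¹ := by group
      rw [e]
      exact Subgroup.mul_mem _ hxT (Subgroup.inv_mem _ hyT)
    have hwZ : w ∈ Z := by
      obtain ⟨z, hz, t, ht, e⟩ := mem_sup_of_commute (fun a _ b _ => by
        by_cases ha : a ∈ Z
        · exact (h.zcomm ha b).symm
        · exact absurd ‹a ∈ Z› ha) w hwT
      have htW : t ∈ W i := by
        have e' : t = z⁻¹ * w := by rw [← e]; group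
        rw [e']
        exact (W i).mul_mem ((W i).inv_mem (h.le i hz)) hw
      rw [← e]
      exact Z.mul_mem hz (h.indep i ⟨htW, ht⟩)
    have hyZ : y ∈ Z := by
      apply ih y hy
      have e : y = w⁻¹ * (w * y) := by group
      rw [e]
      refine Subgroup.mul_mem _ (Subgroup.inv_mem _ ((le_sup_left : Z ≤ _) hwZ)) ?_
      have h5 : (⨆ (j) (_ : j ∉ insert i S), W j) ≤ ⨆ (j) (_ : j ∉ S), W j := by
        refine iSup_le fun j => iSup_le fun hj => ?_
        exact le_iSup₂_of_le j (fun hjS => hj (Finset.mem_insert_of_mem hjS)) le_rfl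
      exact (sup_le_sup le_rfl h5) hx'
    exact Z.mul_mem hwZ hyZ

/-- independence for a set of indices -/
theorem inf_eq [Finite ι] (h : Dec p Z V W) (S : Set ι) :
    (Z ⊔ (⨆ (i) (_ : i ∈ S), W i)) ⊓ (Z ⊔ (⨆ (i) (_ : i ∉ S), W i)) = Z := by
  classical
  apply le_antisymm _ (le_inf le_sup_left le_sup_left)
  intro x hx
  refine h.mem_of_finset (Set.toFinite S).toFinset x ?_ ?_
  · have e : (⨆ (i) (_ : i ∈ (Set.toFinite S).toFinset), W i) = ⨆ (i) (_ : i ∈ S), W i := by
      simp only [Set.Finite.mem_toFinset]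
    rw [e]; exact hx.1
  · have e : (⨆ (i) (_ : i ∉ (Set.toFinite S).toFinset), W i) = ⨆ (i) (_ : i ∉ S), W i := by
      simp only [Set.Finite.mem_toFinset]
    rw [e]; exact hx.2

/-- coarsening along a surjection -/
theorem coarsen [Finite ι] (h : Dec p Z V W) {κ : Type*} (f : ι → κ) (hf : Function.Surjective f) :
    Dec p Z V (fun k => ⨆ (i) (_ : f i = k), W i) := by
  have hle : ∀ k, Z ≤ ⨆ (i) (_ : f i = k), W i := by
    intro k
    obtain ⟨i, hi⟩ := hf k
    exact (h.le i).trans (le_iSup₂_of_le (f := fun i (_ : f i = k) => W i) i hi le_rfl)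
  refine ⟨hle, fun k => iSup_le fun i => iSup_le fun _ => h.le' i, ?_, ?_, ?_, h.cen, h.pr⟩
  · rw [← h.sup]
    apply le_antisymm
    · exact iSup_le fun k => iSup_le fun i => iSup_le fun _ => le_iSup W i
    · exact iSup_le fun i => le_iSup_of_le (f i) (le_iSup₂_of_le i rfl le_rfl)
  · intro k l hkl x hx y hy
    refine commute_iSup (fun i j => ?_) x hx y hy
    refine commute_iSup (fun hi hj => ?_)
    exact h.comm i j (fun hij => hkl (by rw [← hi, ← hj, hij]))
  · intro k
    have h1 := h.inf_eq {i | f i = k}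
    rw [← h1]
    refine inf_le_inf ?_ ?_
    · exact le_sup_right
    · refine le_trans ?_ (le_sup_right : _ ≤ Z ⊔ _)
      refine iSup_le fun l => iSup_le fun hl => iSup_le fun i => iSup_le fun hi => ?_
      exact le_iSup₂_of_le i (fun h' => hl (by rw [← hi]; exact h')) le_rfl

end Dec

section

variable {L : Type*} [Group L]

theorem cg_center (x : L) : cg x (Subgroup.center L) = Subgroup.center L :=
  cj_of_normal inferInstance x

theorem cg_sup (x : L) (S T : Subgroup L) : cg x (S ⊔ T) = cg x S ⊔ cg x T := Subgroup.map_sup S T _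

theorem cg_iSup (x : L) {ι : Sort*} (S : ι → Subgroup L) : cg x (⨆ i, S i) = ⨆ i, cg x (S i) :=
  Subgroup.map_iSup _ S

variable {p : ℕ} [Fact p.Prime] [Finite L] (hR : Rd p L) {V : Subgroup L} (hV : MinN V)
include hR hV

/-- the decomposition into components -/
theorem MinN.dec : Dec p (Subgroup.center L) V
    (fun E : {E // Cmp V E} => Subgroup.center L ⊔ E.1) := by
  refine ⟨fun _ => le_sup_left, fun E => sup_le hV.lt.le E.2.le, ?_, ?_, ?_, le_rfl,
    hR.not_dvd_center⟩
  · conv_rhs => rw [hV.eq_sup_cmp hR]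
    apply le_antisymm
    · exact iSup_le fun E => sup_le_sup le_rfl (le_iSup (fun E : {E // Cmp V E} => E.1) E)
    · obtain ⟨E, hE⟩ := hV.exists_cmp hR
      refine sup_le ?_ (iSup_le fun F => ?_)
      · exact le_iSup_of_le (⟨E, hE⟩ : {E // Cmp V E}) le_sup_left
      · exact le_iSup_of_le F le_sup_right
  · intro E F hEF
    apply commute_sup
    · exact fun x _ y hy => Subgroup.mem_center_iff.1 hy x
    · exact fun x hx y _ => (Subgroup.mem_center_iff.1 hx y).symm
    · exact fun x _ y hy => Subgroup.mem_center_iff.1 hy x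
    · exact hV.commute hR E.2 F.2 fun h => hEF (Subtype.ext h)
  · intro E
    conv_rhs => rw [← hV.inf_eq hR {E.1}]
    refine inf_le_inf ?_ ?_
    · refine sup_le_sup le_rfl ?_
      exact le_iSup (fun F : {F // Cmp V F ∧ F ∈ ({E.1} : Set (Subgroup L))} => F.1)
        ⟨E.1, E.2, rfl⟩
    · refine iSup_le fun F => iSup_le fun hF => sup_le_sup le_rfl ?_
      exact le_iSup (fun F : {F // Cmp V F ∧ F ∉ ({E.1} : Set (Subgroup L))} => F.1)
        ⟨F.1, F.2, fun h => hF (Subtype.ext h)⟩

end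

section

variable {L : Type*} [Group L]

/-- the product of the centre and the conjugates `cg g E` with `g` in the coset `c` of `H` -/
def WB (E H : Subgroup L) (c : L ⧸ H) : Subgroup L :=
  Subgroup.center L ⊔ ⨆ (g : L) (_ : (g : L ⧸ H) = c), cg g E

theorem WB.le_center (E H : Subgroup L) (c : L ⧸ H) : Subgroup.center L ≤ WB E H c := le_sup_left

theorem WB.cg_le (E H : Subgroup L) (g : L) : cg g E ≤ WB E H (g : L ⧸ H) :=
  le_sup_of_le_right (le_iSup₂_of_le (f := fun (a : L) (_ : (a : L ⧸ H) = (g : L ⧸ H)) => cg a E)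
    g rfl le_rfl)

/-- `x` maps the factor of `c` to the factor of `x c` -/
theorem WB.cg_eq (E H : Subgroup L) (x : L) (c : L ⧸ H) : cg x (WB E H c) = WB E H (x • c) := by
  have key : ∀ (x : L) (c : L ⧸ H), cg x (WB E H c) ≤ WB E H (x • c) := by
    intro x c
    unfold WB
    rw [cg_sup, cg_center, cg_iSup]
    refine sup_le_sup le_rfl (iSup_le fun g => ?_)
    rw [cg_iSup]
    refine iSup_le fun hg => ?_
    rw [← cj_mul]
    refine le_iSup₂_of_le (x * g) ?_ le_rfl
    rw [← hg]
    rfl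
  apply le_antisymm (key x c)
  have h1 := cj_mono x (key x⁻¹ (x • c))
  rwa [cj_cj_inv, inv_smul_smul] at h1

/-- the factors for a larger subgroup -/
theorem WB.eq_iSup (E : Subgroup L) {H H' : Subgroup L} (h : H ≤ H') (c : L ⧸ H') :
    WB E H' c = ⨆ (d : L ⧸ H) (_ : Subgroup.quotientMapOfLE h d = c), WB E H d := by
  apply le_antisymm
  · refine sup_le ?_ (iSup_le fun g => iSup_le fun hg => ?_)
    · obtain ⟨g, rfl⟩ := QuotientGroup.mk_surjective c
      exact le_iSup₂_of_le (g : L ⧸ H) rfl (WB.le_center E H _)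
    · exact le_iSup₂_of_le (g : L ⧸ H) (by rw [← hg]; rfl) (WB.cg_le E H g)
  · refine iSup_le fun d => iSup_le fun hd => sup_le (WB.le_center E H' c)
      (iSup_le fun g => iSup_le fun hg => ?_)
    have e : (g : L ⧸ H') = c := by rw [← hd, ← hg]; rfl
    rw [← e]
    exact WB.cg_le E H' g

variable {p : ℕ} [Fact p.Prime] [Finite L] (hR : Rd p L) {V : Subgroup L} (hV : MinN V)
include hR hV

/-- the decomposition with factors indexed by the cosets of a subgroup that contains the normaliser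
of a component -/
theorem MinN.decB {E : Subgroup L} (hE : Cmp V E) (H : Subgroup L)
    (hH : Subgroup.normalizer (E : Set L) ≤ H) :
    Dec p (Subgroup.center L) V (WB E H) := by
  have hne : ∀ g g' : L, (g : L ⧸ H) ≠ (g' : L ⧸ H) → cg g E ≠ cg g' E := by
    intro g g' h1 h2
    apply h1
    rw [QuotientGroup.eq]
    apply hH
    rw [← cg_eq_self_iff, ← cg_cg, ← h2, cg_cg, inv_mul_cancel, cg_one]
  refine ⟨fun c => WB.le_center E H c, fun c => ?_, ?_, ?_, ?_, le_rfl, hR.not_dvd_center⟩
  · exact sup_le hV.lt.le (iSup_le fun g => iSup_le fun _ => (hE.cg hV.normal g).le)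
  · conv_rhs => rw [hV.eq_sup hR hE]
    apply le_antisymm
    · refine iSup_le fun c => sup_le le_sup_left (iSup_le fun g => iSup_le fun _ => ?_)
      exact (le_iSup (fun g : L => cg g E) g).trans le_sup_right
    · refine sup_le ?_ (iSup_le fun g => ?_)
      · exact le_iSup_of_le ((1 : L) : L ⧸ H) (WB.le_center E H _)
      · exact le_iSup_of_le (g : L ⧸ H) (WB.cg_le E H g)
  · intro c d hcd
    apply commute_sup
    · exact fun x _ y hy => Subgroup.mem_center_iff.1 hy x
    · exact fun x hx y _ => (Subgroup.mem_center_iff.1 hx y).symm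
    · exact fun x _ y hy => Subgroup.mem_center_iff.1 hy x
    · apply commute_iSup
      intro g g'
      apply commute_iSup
      intro hg hg'
      exact hV.commute hR (hE.cg hV.normal g) (hE.cg hV.normal g')
        (hne g g' (by rw [hg, hg']; exact hcd))
  · intro c
    conv_rhs => rw [← hV.inf_eq hR {F | ∃ g : L, (g : L ⧸ H) = c ∧ F = cg g E}]
    refine inf_le_inf ?_ ?_
    · refine sup_le_sup le_rfl (iSup_le fun g => iSup_le fun hg => ?_)
      exact le_iSup (fun F : {F // Cmp V F ∧ F ∈ {F | ∃ g : L, (g : L ⧸ H) = c ∧ F = cg g E}} => F.1)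
        ⟨cg g E, hE.cg hV.normal g, g, hg, rfl⟩
    · refine iSup_le fun d => iSup_le fun hd => sup_le_sup le_rfl
        (iSup_le fun g => iSup_le fun hg => ?_)
      refine le_iSup (fun F : {F // Cmp V F ∧ F ∉ {F | ∃ g : L, (g : L ⧸ H) = c ∧ F = cg g E}} =>
        F.1) ⟨cg g E, hE.cg hV.normal g, ?_⟩
      rintro ⟨g', hg', h1⟩
      exact hne g g' (by rw [hg, hg']; exact hd) h1

/-- the decomposition into `q` factors that are permuted cyclically -/
theorem MinN.decZ {E : Subgroup L} (hE : Cmp V E) {q : ℕ} [hq : Fact q.Prime] (H : Subgroup L)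
    [H.Normal] (hH : Subgroup.normalizer (E : Set L) ≤ H) (hi : H.index = q) {x : L} (hx : x ∉ H) :
    Dec p (Subgroup.center L) V (fun j : ZMod q => WB E H ((x ^ j.val : L) : L ⧸ H)) ∧
    (∀ j : ZMod q, cg x (WB E H ((x ^ j.val : L) : L ⧸ H)) =
      WB E H ((x ^ (j + 1).val : L) : L ⧸ H)) ∧
    ∀ h ∈ H, ∀ j : ZMod q, cg h (WB E H ((x ^ j.val : L) : L ⧸ H)) =
      WB E H ((x ^ j.val : L) : L ⧸ H) := by
  have hord : orderOf (x : L ⧸ H) = q := by
    apply orderOf_eq_prime
    · rw [← hi]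
      have : Nat.card (L ⧸ H) = H.index := rfl
      rw [← this]
      exact pow_card_eq_one'
    · intro h1
      exact hx ((QuotientGroup.eq_one_iff x).1 h1)
  have hpow : ∀ n : ℕ, ((x ^ n : L) : L ⧸ H) = (x : L ⧸ H) ^ n := fun n => rfl
  have hinj : Function.Injective (fun j : ZMod q => ((x ^ j.val : L) : L ⧸ H)) := by
    intro i j hij
    have h1 : (x : L ⧸ H) ^ i.val = (x : L ⧸ H) ^ j.val := hij
    rw [pow_eq_pow_iff_modEq, hord] at h1
    have h2 : i.val = j.val := by
      have := h1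
      rw [Nat.ModEq, Nat.mod_eq_of_lt (ZMod.val_lt i), Nat.mod_eq_of_lt (ZMod.val_lt j)] at this
      exact this
    exact ZMod.val_injective q h2
  have hbij : Function.Bijective (fun j : ZMod q => ((x ^ j.val : L) : L ⧸ H)) := by
    refine ⟨hinj, ?_⟩
    apply (Nat.bijective_iff_injective_and_card _).2 ⟨hinj, ?_⟩ |>.2
    rw [Nat.card_zmod]
    exact hi.symm
  refine ⟨(hV.decB hR hE H hH).reindex (Equiv.ofBijective _ hbij), ?_, ?_⟩
  · intro j
    rw [WB.cg_eq]
    congr 1
    show (x : L ⧸ H) * (x : L ⧸ H) ^ j.val = (x : L ⧸ H) ^ (j + 1).val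
    rw [← pow_succ', pow_eq_pow_iff_modEq, hord, ZMod.val_add, ZMod.val_one]
    exact (Nat.mod_modEq _ _).symm
  · intro h hh j
    rw [WB.cg_eq]
    congr 1
    show (h : L ⧸ H) * (x : L ⧸ H) ^ j.val = (x : L ⧸ H) ^ j.val
    rw [(QuotientGroup.eq_one_iff h).2 hh, one_mul]

end

end Pool.Agent.Lib.P0c8ca5.Jj
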