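import Mathlib
import Pool.Agent.Lib.P0c8ca5.GroupLem

/-!
# Minimal normal subgroups of finite groups

`MinNor K`: `K` is a minimal normal subgroup of `H`. `MinIn K S`: `S` is a minimal normal subgroup
of `K`. If `K` is a nonabelian minimal normal subgroup of the finite group `H` then its minimal normal
subgroups are nonabelian simple, conjugate under `H`, commute pairwise, and `K` is their direct
product; every normal subgroup of `K` is the product of those it contains.
-/

set_option autoImplicit false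
set_option linter.unusedSectionVars false

namespace Pool.Agent.Lib.P0c8ca5.Jj

open Subgroup

variable {H : Type*} [Group H]

/-- `N` is normalised by `K` -/
def NorBy (K N : Subgroup H) : Prop := ∀ g ∈ K, ∀ x ∈ N, g * x * g⁻¹ ∈ N

/-- `K` is a minimal normal subgroup -/
structure MinNor (K : Subgroup H) : Prop where
  normal : K.Normal
  ne_bot : K ≠ ⊥
  min : ∀ N : Subgroup H, N.Normal → N ≤ K → N = ⊥ ∨ N = K

/-- `S` is a minimal subgroup of `K` normalised by `K` -/
structure MinIn (K S : Subgroup H) : Prop where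
  le : S ≤ K
  nor : NorBy K S
  ne_bot : S ≠ ⊥
  min : ∀ N : Subgroup H, N ≤ S → NorBy K N → N = ⊥ ∨ N = S

theorem NorBy.inf {K N M : Subgroup H} (h1 : NorBy K N) (h2 : NorBy K M) : NorBy K (N ⊓ M) :=
  fun g hg x hx => ⟨h1 g hg x hx.1, h2 g hg x hx.2⟩

theorem NorBy.iSup {K : Subgroup H} {ι : Sort*} {N : ι → Subgroup H} (h : ∀ i, NorBy K (N i)) :
    NorBy K (⨆ i, N i) := by
  intro g hg x hx
  have h1 : (⨆ i, N i) ≤ (⨆ i, N i).comap (MulAut.conj g).toMonoidHom :=
    iSup_le fun i y hy => by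
      show g * y * g⁻¹ ∈ ⨆ i, N i
      exact le_iSup N i (h i g hg y hy)
  exact h1 hx

theorem NorBy.sup {K N M : Subgroup H} (h1 : NorBy K N) (h2 : NorBy K M) : NorBy K (N ⊔ M) := by
  intro g hg x hx
  have h3 : N ⊔ M ≤ (N ⊔ M).comap (MulAut.conj g).toMonoidHom := by
    refine sup_le (fun y hy => ?_) fun y hy => ?_
    · show g * y * g⁻¹ ∈ N ⊔ M
      exact (le_sup_left : N ≤ N ⊔ M) (h1 g hg y hy)
    · show g * y * g⁻¹ ∈ N ⊔ M
      exact (le_sup_right : M ≤ N ⊔ M) (h2 g hg y hy)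
  exact h3 hx

theorem NorBy.mono {K L N : Subgroup H} (h : NorBy L N) (hKL : K ≤ L) : NorBy K N :=
  fun g hg x hx => h g (hKL hg) x hx

theorem norBy_of_normal {K N : Subgroup H} [hN : N.Normal] : NorBy K N :=
  fun g _ x hx => hN.conj_mem x hx g

/-- Every nontrivial normalised subgroup contains a minimal one. -/
theorem exists_minIn [Finite H] {K N : Subgroup H} (hN : N ≤ K) (h1 : NorBy K N) (h0 : N ≠ ⊥) :
    ∃ S, MinIn K S ∧ S ≤ N := by
  have hwf : WellFounded ((· < ·) : Subgroup H → Subgroup H → Prop) := wellFounded_lt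
  obtain ⟨S, ⟨s1, s2, s3⟩, hmin⟩ := hwf.has_min {S | S ≤ N ∧ NorBy K S ∧ S ≠ ⊥} ⟨N, le_rfl, h1, h0⟩
  refine ⟨S, ⟨s1.trans hN, s2, s3, fun M hM hM' => ?_⟩, s1⟩
  by_contra hcon
  push Not at hcon
  exact hmin M ⟨hM.trans s1, hM', hcon.1⟩ (lt_of_le_of_ne hM hcon.2)

theorem MinIn.inf_eq_bot {K S T : Subgroup H} (hS : MinIn K S) (hT : NorBy K T) (h : ¬ S ≤ T) :
    S ⊓ T = ⊥ := by
  rcases hS.min (S ⊓ T) inf_le_left (hS.nor.inf hT) with h1 | h1
  · exact h1
  · exact absurd (inf_eq_left.1 h1) h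

theorem MinIn.not_le {K S T : Subgroup H} (hS : MinIn K S) (hT : MinIn K T) (h : S ≠ T) :
    ¬ S ≤ T := by
  intro h1
  rcases hT.min S h1 hS.nor with h2 | h2
  · exact hS.ne_bot h2
  · exact h h2

/-- Subgroups of `K` normalised by `K` with trivial intersection commute. -/
theorem commute_of_inf {K S T : Subgroup H} (hS : S ≤ K) (hT : T ≤ K) (nS : NorBy K S)
    (nT : NorBy K T) (h : S ⊓ T = ⊥) : ∀ x ∈ S, ∀ y ∈ T, x * y = y * x := by
  intro x hx y hy
  have h1 : x * y * x⁻¹ * y⁻¹ ∈ S ⊓ T := by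
    constructor
    · have : x * y * x⁻¹ * y⁻¹ = x * (y * x⁻¹ * y⁻¹) := by group
      rw [this]
      exact S.mul_mem hx (nS y (hT hy) _ (S.inv_mem hx))
    · exact T.mul_mem (nT x (hS hx) y hy) (T.inv_mem hy)
  rw [h, Subgroup.mem_bot] at h1
  have h2 : x * y = (x * y * x⁻¹ * y⁻¹) * (y * x) := by group
  rw [h2, h1, one_mul]

theorem MinIn.commute {K S T : Subgroup H} (hS : MinIn K S) (hT : MinIn K T) (h : S ≠ T) :
    ∀ x ∈ S, ∀ y ∈ T, x * y = y * x :=
  commute_of_inf hS.le hT.le hS.nor hT.nor (hS.inf_eq_bot hT.nor (hS.not_le hT h))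

theorem mem_sup_of_commute {P R : Subgroup H} (h : ∀ y ∈ P, ∀ z ∈ R, z * y = y * z) :
    ∀ z ∈ P ⊔ R, ∃ a ∈ P, ∃ b ∈ R, a * b = z := by
  let W : Subgroup H :=
    { carrier := {z | ∃ a ∈ P, ∃ b ∈ R, a * b = z}
      mul_mem' := by
        rintro _ _ ⟨a, ha, b, hb, rfl⟩ ⟨a', ha', b', hb', rfl⟩
        refine ⟨a * a', P.mul_mem ha ha', b * b', R.mul_mem hb hb', ?_⟩
        have := h a' ha' b hb
        calc a * a' * (b * b') = a * (a' * b) * b' := by group
          _ = a * (b * a') * b' := by rw [this]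
          _ = a * b * (a' * b') := by group
      one_mem' := ⟨1, P.one_mem, 1, R.one_mem, mul_one 1⟩
      inv_mem' := by
        rintro _ ⟨a, ha, b, hb, rfl⟩
        refine ⟨a⁻¹, P.inv_mem ha, b⁻¹, R.inv_mem hb, ?_⟩
        have := h a⁻¹ (P.inv_mem ha) b⁻¹ (R.inv_mem hb)
        rw [← this]
        group }
  intro z hz
  have h1 : P ⊔ R ≤ W := sup_le (fun a ha => ⟨a, ha, 1, R.one_mem, mul_one a⟩)
    (fun b hb => ⟨1, P.one_mem, b, hb, one_mul b⟩)
  exact h1 hz

theorem mem_cj {g x : H} {S : Subgroup H} : x ∈ cg g S ↔ g⁻¹ * x * g ∈ S := by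
  constructor
  · rintro ⟨y, hy, rfl⟩
    show g⁻¹ * (g * y * g⁻¹) * g ∈ S
    have : g⁻¹ * (g * y * g⁻¹) * g = y := by group
    rwa [this]
  · intro h
    exact ⟨g⁻¹ * x * g, h, by show g * (g⁻¹ * x * g) * g⁻¹ = x; group⟩

theorem cj_mul (g h : H) (S : Subgroup H) : cg (g * h) S = cg g (cg h S) := by
  ext x
  rw [mem_cj, mem_cj, mem_cj]
  have : (g * h)⁻¹ * x * (g * h) = h⁻¹ * (g⁻¹ * x * g) * h := by group
  rw [this]

theorem cj_one (S : Subgroup H) : cg 1 S = S := by
  ext x
  rw [mem_cj]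
  simp

theorem cj_inv_cj (g : H) (S : Subgroup H) : cg g⁻¹ (cg g S) = S := by
  rw [← cj_mul, inv_mul_cancel, cj_one]

theorem cj_cj_inv (g : H) (S : Subgroup H) : cg g (cg g⁻¹ S) = S := by
  rw [← cj_mul, mul_inv_cancel, cj_one]

theorem cj_mono (g : H) {S T : Subgroup H} (h : S ≤ T) : cg g S ≤ cg g T := by
  intro x hx
  rw [mem_cj] at hx ⊢
  exact h hx

theorem cj_bot (g : H) : cg g (⊥ : Subgroup H) = ⊥ := by
  ext x
  rw [mem_cj, Subgroup.mem_bot, Subgroup.mem_bot]
  constructor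
  · intro h
    have : x = g * (g⁻¹ * x * g) * g⁻¹ := by group
    rw [this, h]; group
  · rintro rfl
    group

theorem cj_eq_of_norBy {K N : Subgroup H} (h : NorBy K N) {g : H} (hg : g ∈ K) : cg g N = N := by
  ext x
  rw [mem_cj]
  constructor
  · intro hx
    have := h g hg _ hx
    have e : g * (g⁻¹ * x * g) * g⁻¹ = x := by group
    rwa [e] at this
  · intro hx
    have := h g⁻¹ (K.inv_mem hg) x hx
    rwa [inv_inv] at this

theorem cj_of_normal {K : Subgroup H} (hK : K.Normal) (g : H) : cg g K = K :=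
  cj_eq_of_norBy (K := ⊤) (norBy_of_normal (hN := hK)) (Subgroup.mem_top g)

theorem NorBy.cg {K N : Subgroup H} (h : NorBy K N) (hK : K.Normal) (g : H) :
    NorBy K (cg g N) := by
  intro a ha x hx
  rw [mem_cj] at hx ⊢
  have h1 := h (g⁻¹ * a * g) (by
    have := hK.conj_mem a ha g⁻¹
    rwa [inv_inv] at this) _ hx
  have e : g⁻¹ * a * g * (g⁻¹ * x * g) * (g⁻¹ * a * g)⁻¹ = g⁻¹ * (a * x * a⁻¹) * g := by group
  rwa [e] at h1

theorem MinIn.cg {K S : Subgroup H} (h : MinIn K S) (hK : K.Normal) (g : H) :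
    MinIn K (cg g S) := by
  refine ⟨?_, h.nor.cg hK g, ?_, ?_⟩
  · have := cj_mono g h.le
    rwa [cj_of_normal hK] at this
  · intro h1
    apply h.ne_bot
    rw [← cj_inv_cj g S, h1, cj_bot]
  · intro N hN hN'
    have h1 : P0c8ca5.cg g⁻¹ N ≤ S := by
      have := cj_mono g⁻¹ hN
      rwa [cj_inv_cj] at this
    rcases h.min _ h1 (hN'.cg hK g⁻¹) with h2 | h2
    · left
      rw [← cj_cj_inv g N, h2, cj_bot]
    · right
      rw [← cj_cj_inv g N, h2]

/-- `K` is not abelian -/
def NonAb (K : Subgroup H) : Prop := ∃ x ∈ K, ∃ y ∈ K, x * y ≠ y * x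

section main

variable {K : Subgroup H} (hK : MinNor K) (hna : NonAb K)
include hK hna

theorem MinNor.center_bot : ∀ x ∈ K, (∀ y ∈ K, x * y = y * x) → x = 1 := by
  intro x hx hxy
  let C : Subgroup H := K ⊓ Subgroup.centralizer (K : Set H)
  have hCn : C.Normal := by
    constructor
    intro c hc g
    refine ⟨hK.normal.conj_mem c hc.1 g, ?_⟩
    show g * c * g⁻¹ ∈ Subgroup.centralizer (K : Set H)
    rw [Subgroup.mem_centralizer_iff]
    intro y hy
    have hy' : g⁻¹ * y * g ∈ K := by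
      have := hK.normal.conj_mem y hy g⁻¹
      rwa [inv_inv] at this
    have h1 := Subgroup.mem_centralizer_iff.1 hc.2 _ hy'
    have e1 : y * (g * c * g⁻¹) = g * (g⁻¹ * y * g * c) * g⁻¹ := by group
    have e2 : g * c * g⁻¹ * y = g * (c * (g⁻¹ * y * g)) * g⁻¹ := by group
    rw [e1, e2, h1]
  rcases hK.min C hCn inf_le_left with h | h
  · have : x ∈ C := ⟨hx, Subgroup.mem_centralizer_iff.2 fun y hy => (hxy y hy).symm⟩
    rwa [h, Subgroup.mem_bot] at this
  · exfalso
    obtain ⟨a, ha, b, hb, hab⟩ := hna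
    have : a ∈ C := by rw [h]; exact ha
    exact hab (Subgroup.mem_centralizer_iff.1 this.2 b hb).symm

/-- Minimal normal subgroups of `K` are conjugate. -/
theorem MinNor.conj_of_minIn {S T : Subgroup H} (hS : MinIn K S) (hT : MinIn K T) :
    ∃ g : H, T = cg g S := by
  by_contra hcon
  push Not at hcon
  let R : Subgroup H := ⨆ g : H, cg g S
  have hRn : R.Normal := by
    constructor
    intro x hx g
    have h1 : R ≤ R.comap (MulAut.conj g).toMonoidHom := iSup_le fun a y hy => by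
      show g * y * g⁻¹ ∈ R
      have h2 : g * y * g⁻¹ ∈ cg (g * a) S := by
        rw [mem_cj]
        have e : (g * a)⁻¹ * (g * y * g⁻¹) * (g * a) = a⁻¹ * y * a := by group
        rw [e]
        exact mem_cj.1 hy
      exact le_iSup (fun g : H => cg g S) (g * a) h2
    exact h1 hx
  have hRK : R ≤ K := iSup_le fun g => (hS.cg hK.normal g).le
  have hR : R = K := by
    rcases hK.min R hRn hRK with h | h
    · exfalso
      apply hS.ne_bot
      rw [eq_bot_iff, ← h]
      have := le_iSup (fun g : H => cg g S) 1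
      rwa [cj_one] at this
    · exact h
  obtain ⟨x, hx, hx1⟩ : ∃ x ∈ T, x ≠ 1 := by
    by_contra hcon'
    push Not at hcon'
    exact hT.ne_bot ((Subgroup.eq_bot_iff_forall _).2 hcon')
  apply hx1
  apply hK.center_bot hna x (hT.le hx)
  have h1 : K ≤ Subgroup.centralizer {x} := by
    rw [← hR]
    refine iSup_le fun g y hy => ?_
    rw [Subgroup.mem_centralizer_iff]
    rintro z hz
    rw [Set.mem_singleton_iff] at hz
    rw [hz]
    exact hT.commute (hS.cg hK.normal g) (hcon g) x hx y hy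
  intro y hy
  exact Subgroup.mem_centralizer_iff.1 (h1 hy) x rfl

/-- `K` is generated by its minimal normal subgroups. -/
theorem MinNor.iSup_minIn [Finite H] : (⨆ S : {S // MinIn K S}, S.1) = K := by
  obtain ⟨S, hS, -⟩ := exists_minIn (le_refl K) (fun g hg x hx => by
    exact K.mul_mem (K.mul_mem hg hx) (K.inv_mem hg)) hK.ne_bot
  let R : Subgroup H := ⨆ S : {S // MinIn K S}, S.1
  have hRn : R.Normal := by
    constructor
    intro x hx g
    have h1 : R ≤ R.comap (MulAut.conj g).toMonoidHom := iSup_le fun T y hy => by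
      show g * y * g⁻¹ ∈ R
      have h2 : g * y * g⁻¹ ∈ cg g T.1 := by
        rw [mem_cj]
        have e : g⁻¹ * (g * y * g⁻¹) * g = y := by group
        rwa [e]
      exact le_iSup (fun S : {S // MinIn K S} => S.1) ⟨_, T.2.cg hK.normal g⟩ h2
    exact h1 hx
  rcases hK.min R hRn (iSup_le fun T => T.2.le) with h | h
  · exfalso
    apply hS.ne_bot
    rw [eq_bot_iff, ← h]
    exact le_iSup (fun S : {S // MinIn K S} => S.1) ⟨S, hS⟩
  · exact h

/-- A minimal normal subgroup of `K` is not abelian. -/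
theorem MinNor.nonAb [Finite H] {S : Subgroup H} (hS : MinIn K S) : NonAb S := by
  by_contra hcon
  unfold NonAb at hcon
  push Not at hcon
  obtain ⟨x, hx, hx1⟩ : ∃ x ∈ S, x ≠ 1 := by
    by_contra hcon'
    push Not at hcon'
    exact hS.ne_bot ((Subgroup.eq_bot_iff_forall _).2 hcon')
  apply hx1
  apply hK.center_bot hna x (hS.le hx)
  have h1 : K ≤ Subgroup.centralizer {x} := by
    rw [← hK.iSup_minIn hna]
    refine iSup_le fun T y hy => ?_
    rw [Subgroup.mem_centralizer_iff]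
    rintro z hz
    rw [Set.mem_singleton_iff] at hz
    rw [hz]
    by_cases hTS : S = T.1
    · exact hcon x hx y (hTS ▸ hy)
    · exact hS.commute T.2 hTS x hx y hy
  intro y hy
  exact Subgroup.mem_centralizer_iff.1 (h1 hy) x rfl

/-- A minimal normal subgroup of `K` is simple. -/
theorem MinNor.simple [Finite H] {S : Subgroup H} (hS : MinIn K S) (N : Subgroup H) (hN : N ≤ S)
    (hN' : NorBy S N) : N = ⊥ ∨ N = S := by
  apply hS.min N hN
  intro g hg x hx
  have h1 : K ≤ Subgroup.normalizer (N : Set H) := by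
    rw [← hK.iSup_minIn hna]
    refine iSup_le fun T y hy => ?_
    rw [Subgroup.mem_normalizer_iff]
    by_cases hTS : S = T.1
    · have hyS : y ∈ S := hTS ▸ hy
      intro z
      constructor
      · exact fun hz => hN' y hyS z hz
      · intro hz
        have := hN' y⁻¹ (S.inv_mem hyS) _ hz
        have e : y⁻¹ * (y * z * y⁻¹) * y⁻¹⁻¹ = z := by group
        rwa [e] at this
    · intro z
      constructor
      · intro hz
        have := hS.commute T.2 hTS z (hN hz) y hy
        have e : y * z * y⁻¹ = z := by rw [← this]; group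
        rwa [e]
      · intro hz
        have h2 := hS.commute T.2 hTS _ (hN hz) y hy
        have e : y * z * y⁻¹ = z := by
          have h3 : y * z * y⁻¹ * y = y * (y * z * y⁻¹) := h2
          have h4 : y * z = y * (y * z * y⁻¹) := by
            rw [← h3]; group
          exact (mul_left_cancel h4).symm
        rwa [e] at hz
  exact (Subgroup.mem_normalizer_iff.1 (h1 hg) x).1 hx

/-- The product of the other minimal normal subgroups commutes with `S`. -/
theorem MinNor.commute_others {S : Subgroup H} (hS : MinIn K S) :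
    ∀ x ∈ S, ∀ y ∈ ⨆ T : {T // MinIn K T ∧ T ≠ S}, T.1, x * y = y * x := by
  intro x hx y hy
  have h1 : (⨆ T : {T // MinIn K T ∧ T ≠ S}, T.1) ≤ Subgroup.centralizer {x} := by
    refine iSup_le fun T z hz => ?_
    rw [Subgroup.mem_centralizer_iff]
    rintro w hw
    rw [Set.mem_singleton_iff] at hw
    rw [hw]
    exact hS.commute T.2.1 (Ne.symm T.2.2) x hx z hz
  exact Subgroup.mem_centralizer_iff.1 (h1 hy) x rfl

/-- The product of the minimal normal subgroups of `K` is direct. -/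
theorem MinNor.inf_others [Finite H] {S : Subgroup H} (hS : MinIn K S) :
    S ⊓ (⨆ T : {T // MinIn K T ∧ T ≠ S}, T.1) = ⊥ := by
  rcases hS.min _ inf_le_left (hS.nor.inf
    (NorBy.iSup fun T : {T // MinIn K T ∧ T ≠ S} => T.2.1.nor)) with h | h
  · exact h
  · exfalso
    obtain ⟨x, hx, y, hy, hxy⟩ := hK.nonAb hna hS
    apply hxy
    apply hK.commute_others hna hS x hx y
    rw [← h] at hy
    exact hy.2

/-- A normal subgroup of `K` is generated by the minimal ones it contains. -/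
theorem MinNor.eq_iSup [Finite H] {N : Subgroup H} (hN : N ≤ K) (hN' : NorBy K N) :
    N = ⨆ T : {T // MinIn K T ∧ T ≤ N}, T.1 := by
  apply le_antisymm _ (iSup_le fun T => T.2.2)
  intro x hx
  have hxK := hN hx
  rw [← hK.iSup_minIn hna] at hxK
  have h1 : (⨆ S : {S // MinIn K S}, S.1) ≤
      (⨆ T : {T // MinIn K T ∧ T ≤ N}, T.1) ⊔ (⨆ T : {T // MinIn K T ∧ ¬ T ≤ N}, T.1) := by
    refine iSup_le fun S => ?_
    by_cases h : S.1 ≤ N
    · exact (le_iSup (fun T : {T // MinIn K T ∧ T ≤ N} => T.1) ⟨S.1, S.2, h⟩).trans le_sup_left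
    · exact (le_iSup (fun T : {T // MinIn K T ∧ ¬ T ≤ N} => T.1) ⟨S.1, S.2, h⟩).trans le_sup_right
  set P : Subgroup H := ⨆ T : {T // MinIn K T ∧ T ≤ N}, T.1 with hP
  set R : Subgroup H := ⨆ T : {T // MinIn K T ∧ ¬ T ≤ N}, T.1 with hR
  have hPR : P ≤ Subgroup.centralizer (R : Set H) := by
    refine iSup_le fun S y hy => ?_
    rw [Subgroup.mem_centralizer_iff]
    intro z hz
    have h2 : R ≤ Subgroup.centralizer {y} := by
      refine iSup_le fun T w hw => ?_
      rw [Subgroup.mem_centralizer_iff]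
      rintro v hv
      rw [Set.mem_singleton_iff] at hv
      rw [hv]
      exact S.2.1.commute T.2.1 (fun h => T.2.2 (h ▸ S.2.2)) y hy w hw
    exact (Subgroup.mem_centralizer_iff.1 (h2 hz) y rfl).symm
  have hmul := mem_sup_of_commute (fun y hy z hz => Subgroup.mem_centralizer_iff.1 (hPR hy) z hz)
  obtain ⟨a, ha, b, hb, hab⟩ := hmul x (h1 hxK)
  have hPN : P ≤ N := iSup_le fun T => T.2.2
  have hbN : b ∈ N := by
    have : b = a⁻¹ * x := by rw [← hab]; group
    rw [this]
    exact N.mul_mem (N.inv_mem (hPN ha)) hx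
  have hRK : R ≤ K := iSup_le fun T => T.2.1.le
  have hb1 : b = 1 := by
    apply hK.center_bot hna b (hRK hb)
    have h3 : K ≤ Subgroup.centralizer {b} := by
      rw [← hK.iSup_minIn hna]
      refine iSup_le fun T y hy => ?_
      rw [Subgroup.mem_centralizer_iff]
      rintro w hw
      rw [Set.mem_singleton_iff] at hw
      rw [hw]
      by_cases hTN : T.1 ≤ N
      · have hyP : y ∈ P := le_iSup (fun T : {T // MinIn K T ∧ T ≤ N} => T.1) ⟨T.1, T.2, hTN⟩ hy
        exact Subgroup.mem_centralizer_iff.1 (hPR hyP) b hb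
      · exact (commute_of_inf T.2.le hN T.2.nor hN' (T.2.inf_eq_bot hN' hTN) y hy b hbN).symm
    intro y hy
    exact Subgroup.mem_centralizer_iff.1 (h3 hy) b rfl
  rw [← hab, hb1, mul_one]
  exact ha

end main

end Pool.Agent.Lib.P0c8ca5.Jj
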