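import Pool.Agent.Lib.P0c8ca5J.Base
import Pool.Agent.Lib.P0c8ca5T.PExt

/-!
# The quasi-simple subgroups of a minimal normal subgroup modulo the centre

`Cmp V E`: `E` is a quasi-simple subgroup of `V` that is normalised by `V`.
For `V` minimal normal modulo the centre `Z` of `L` (and `Rd p L`) these subgroups are conjugate under `L`,
commute pairwise, have order divisible by `p`, and `V = Z ⊔ ⨆ cg g E`, a direct product modulo `Z`.
-/

set_option autoImplicit false

namespace Pool.Agent.Lib.P0c8ca5.Jj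

open Subgroup

variable {L : Type*} [Group L]

/-- `E` is a quasi-simple subgroup of `V` normalised by `V` -/
structure Cmp (V E : Subgroup L) : Prop where
  qs : QS E
  le : E ≤ V
  nor : V ≤ Subgroup.normalizer (E : Set L)

theorem QS.not_comm {E : Subgroup L} (h : QS E) : ¬ ∀ x ∈ E, ∀ y ∈ E, x * y = y * x := by
  intro hc
  apply h.ne
  rw [← h.perf, Subgroup.commutator_eq_bot_iff_le_centralizer]
  intro x hx
  rw [Subgroup.mem_centralizer_iff]
  exact fun y hy => (hc x hx y hy).symm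

theorem QS.not_le_center {E : Subgroup L} (h : QS E) : ¬ E ≤ Subgroup.center L := fun hc =>
  h.not_comm fun x _ y hy => Subgroup.mem_center_iff.1 (hc hy) x

theorem norBy_comm {K W : Subgroup L} (h : NorBy K W) : NorBy K ⁅W, W⁆ := by
  intro g hg x hx
  have h1 : ⁅W, W⁆ ≤ (⁅W, W⁆).comap (MulAut.conj g).toMonoidHom := by
    rw [Subgroup.commutator_le]
    intro a ha b hb
    show g * (a * b * a⁻¹ * b⁻¹) * g⁻¹ ∈ ⁅W, W⁆
    have e : g * (a * b * a⁻¹ * b⁻¹) * g⁻¹ =
        (g * a * g⁻¹) * (g * b * g⁻¹) * (g * a * g⁻¹)⁻¹ * (g * b * g⁻¹)⁻¹ := by group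
    rw [e]
    exact Subgroup.commutator_mem_commutator (h g hg a ha) (h g hg b hb)
  exact h1 hx

theorem cg_commutator (g : L) (W : Subgroup L) : cg g ⁅W, W⁆ = ⁅cg g W, cg g W⁆ := by
  unfold cg
  exact Subgroup.map_commutator W W _

/-- conjugates of quasi-simple subgroups -/
theorem QS.cg {E : Subgroup L} (h : QS E) (g : L) : QS (cg g E) := by
  refine ⟨?_, ?_, ?_⟩
  · intro h1
    apply h.ne
    rw [← cj_inv_cj g E, h1, cj_bot]
  · rw [← cg_commutator, h.perf]
  · intro N hN hN'
    have h1 : P0c8ca5.cg g⁻¹ N ≤ E := by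
      have := cj_mono g⁻¹ hN
      rwa [cj_inv_cj] at this
    have h2 : NorBy E (P0c8ca5.cg g⁻¹ N) := by
      have h3 : NorBy (P0c8ca5.cg g E) N := norBy_iff.2 hN'
      intro a ha x hx
      rw [mem_cj, inv_inv] at hx ⊢
      have h4 := h3 (g * a * g⁻¹) (by
        rw [mem_cj]
        have e : g⁻¹ * (g * a * g⁻¹) * g = a := by group
        rwa [e]) _ hx
      have e : g * (a * x * a⁻¹) * g⁻¹ = g * a * g⁻¹ * (g * x * g⁻¹) * (g * a * g⁻¹)⁻¹ := by group
      rwa [e]
    rcases h.qs _ h1 (norBy_iff.1 h2) with h3 | h3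
    · left
      intro x hx
      rw [Subgroup.mem_centralizer_iff]
      intro y hy
      have hx' : g⁻¹ * x * g ∈ P0c8ca5.cg g⁻¹ N := by
        rw [mem_cj, inv_inv]
        have e : g * (g⁻¹ * x * g) * g⁻¹ = x := by group
        rwa [e]
      have h4 := Subgroup.mem_centralizer_iff.1 (h3 hx') (g⁻¹ * y * g) (mem_cj.1 hy)
      calc y * x = g * (g⁻¹ * y * g * (g⁻¹ * x * g)) * g⁻¹ := by group
        _ = g * (g⁻¹ * x * g * (g⁻¹ * y * g)) * g⁻¹ := by rw [h4]
        _ = x * y := by group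
    · right
      rw [← cj_cj_inv g N, h3]

theorem Cmp.cg {V E : Subgroup L} (h : Cmp V E) (hV : V.Normal) (g : L) : Cmp V (cg g E) := by
  refine ⟨h.qs.cg g, ?_, ?_⟩
  · have := cj_mono g h.le
    rwa [cj_of_normal hV] at this
  · exact norBy_iff.1 ((norBy_iff.2 h.nor).cg hV g)

section

variable {Z V : Subgroup L}

/-- The commutator subgroup of a factor is a component. -/
theorem Lay.cmp [Finite L] (h : Lay Z V) {W : Subgroup L} (hW : Fac Z V W) : Cmp V ⁅W, W⁆ := by
  have hEW : ⁅W, W⁆ ≤ W := (le_sup_right : ⁅W, W⁆ ≤ Z ⊔ ⁅W, W⁆).trans (h.sup_comm hW).le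
  refine ⟨⟨?_, h.perfect hW, ?_⟩, hEW.trans hW.le, norBy_iff.1 (norBy_comm hW.nor)⟩
  · intro h0
    have h1 := h.sup_comm hW
    rw [h0, sup_bot_eq] at h1
    exact hW.lt.ne h1
  · intro N hN hN'
    rcases h.quasi hW N hN (norBy_iff.2 hN') with h1 | h1
    · left
      intro x hx
      rw [Subgroup.mem_centralizer_iff]
      exact fun y _ => (h.comm (h1 hx) y).symm
    · exact Or.inr h1

/-- Every component is the commutator subgroup of a factor. -/
theorem Lay.exists_of_cmp [Finite L] (h : Lay Z V) {E : Subgroup L} (hE : Cmp V E) :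
    ∃ W, Fac Z V W ∧ E = ⁅W, W⁆ := by
  by_contra hcon
  push Not at hcon
  apply hE.qs.not_comm
  have key : ∀ W, Fac Z V W → W ≤ Subgroup.centralizer (E : Set L) := by
    intro W hW
    have hF := h.cmp hW
    have hne := hcon W hW
    set F := ⁅W, W⁆ with hFdef
    have hNn : NorBy V (E ⊓ F) := (norBy_iff.2 hE.nor).inf (norBy_iff.2 hF.nor)
    have hN1 : E ⊓ F ≤ Subgroup.centralizer (E : Set L) := by
      rcases hE.qs.qs (E ⊓ F) inf_le_left (norBy_iff.1 (hNn.mono hE.le)) with h1 | h1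
      · exact h1
      · exfalso
        have h2 : E ≤ F := inf_eq_left.1 h1
        rcases hF.qs.qs E h2 (hF.le.trans hE.nor) with h3 | h3
        · exact hE.qs.not_comm fun x hx y hy =>
            (Subgroup.mem_centralizer_iff.1 (h3 hx) y (h2 hy)).symm
        · exact hne h3
    have hEF : ⁅E, F⁆ ≤ E ⊓ F := by
      rw [Subgroup.commutator_le]
      intro a ha b hb
      refine ⟨?_, ?_⟩
      · show a * b * a⁻¹ * b⁻¹ ∈ E
        have e : a * b * a⁻¹ * b⁻¹ = a * (b * a⁻¹ * b⁻¹) := by group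
        rw [e]
        exact E.mul_mem ha ((norBy_iff.2 hE.nor) b (hF.le hb) _ (E.inv_mem ha))
      · show a * b * a⁻¹ * b⁻¹ ∈ F
        exact F.mul_mem ((norBy_iff.2 hF.nor) a (hE.le ha) _ hb) (F.inv_mem hb)
    have h1 : ⁅⁅E, F⁆, E⁆ = ⊥ := by
      rw [Subgroup.commutator_eq_bot_iff_le_centralizer]
      exact hEF.trans hN1
    have h2 : ⁅⁅F, E⁆, E⁆ = ⊥ := by
      rw [Subgroup.commutator_comm F E]
      exact h1
    have h3 : ⁅⁅E, E⁆, F⁆ = ⊥ := Subgroup.commutator_commutator_eq_bot_of_rotate h1 h2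
    rw [hE.qs.perf, Subgroup.commutator_eq_bot_iff_le_centralizer] at h3
    -- `W = Z F` centralizes `E`
    intro x hx
    rw [Subgroup.mem_centralizer_iff]
    intro e he
    have h4 : e ∈ Subgroup.centralizer (W : Set L) := by
      rw [← h.centralizer_comm hW]
      exact h3 he
    exact (Subgroup.mem_centralizer_iff.1 h4 x hx).symm
  have h5 : V ≤ Subgroup.centralizer (E : Set L) := by
    rw [← h.iSup_fac]
    exact iSup_le fun W => key W.1 W.2
  intro x hx y hy
  exact (Subgroup.mem_centralizer_iff.1 (h5 (hE.le hx)) y hy).symm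

theorem Lay.sup_cmp [Finite L] (h : Lay Z V) {E : Subgroup L} (hE : Cmp V E) :
    Fac Z V (Z ⊔ E) := by
  obtain ⟨W, hW, rfl⟩ := h.exists_of_cmp hE
  rw [h.sup_comm hW]
  exact hW

theorem Lay.comm_sup [Finite L] (h : Lay Z V) {E : Subgroup L} (hE : Cmp V E) :
    ⁅Z ⊔ E, Z ⊔ E⁆ = E := by
  obtain ⟨W, hW, rfl⟩ := h.exists_of_cmp hE
  rw [h.sup_comm hW]

end

section main

variable {p : ℕ} [Fact p.Prime] [Finite L] (hR : Rd p L) {V : Subgroup L} (hV : MinN V)
include hR hV

/-- There are components. -/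
theorem MinN.exists_cmp : ∃ E, Cmp V E := by
  obtain ⟨W, hW⟩ := (hV.lay hR).exists_fac
  exact ⟨_, (hV.lay hR).cmp hW⟩

/-- The components are conjugate. -/
theorem MinN.conj {E E' : Subgroup L} (hE : Cmp V E) (hE' : Cmp V E') : ∃ g : L, E' = cg g E := by
  obtain ⟨W, hW, rfl⟩ := (hV.lay hR).exists_of_cmp hE
  obtain ⟨W', hW', rfl⟩ := (hV.lay hR).exists_of_cmp hE'
  obtain ⟨g, rfl⟩ := (hV.lay hR).conj hW hW'
  exact ⟨g, (cg_commutator g W).symm⟩

/-- Different components commute. -/
theorem MinN.commute {E E' : Subgroup L} (hE : Cmp V E) (hE' : Cmp V E') (hne : E ≠ E') :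
    ∀ x ∈ E, ∀ y ∈ E', x * y = y * x := by
  obtain ⟨W, hW, rfl⟩ := (hV.lay hR).exists_of_cmp hE
  obtain ⟨W', hW', rfl⟩ := (hV.lay hR).exists_of_cmp hE'
  intro x hx y hy
  refine (hV.lay hR).commute hW hW' (fun h => hne (by rw [h])) x ?_ y ?_
  · rw [← (hV.lay hR).sup_comm hW]
    exact (le_sup_right : ⁅W, W⁆ ≤ _) hx
  · rw [← (hV.lay hR).sup_comm hW']
    exact (le_sup_right : ⁅W', W'⁆ ≤ _) hy

/-- `V` is generated by the centre and the components. -/
theorem MinN.eq_sup_cmp :
    V = Subgroup.center L ⊔ ⨆ E : {E // Cmp V E}, E.1 := by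
  have hl := hV.lay hR
  apply le_antisymm
  · conv_lhs => rw [← hl.iSup_fac]
    refine iSup_le fun W => ?_
    rw [← hl.sup_comm W.2]
    exact sup_le_sup le_rfl (le_iSup (fun E : {E // Cmp V E} => E.1) ⟨_, hl.cmp W.2⟩)
  · exact sup_le hV.lt.le (iSup_le fun E => E.2.le)

/-- `V` is generated by the centre and the conjugates of a component. -/
theorem MinN.eq_sup {E : Subgroup L} (hE : Cmp V E) :
    V = Subgroup.center L ⊔ ⨆ g : L, cg g E := by
  apply le_antisymm
  · conv_lhs => rw [hV.eq_sup_cmp hR]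
    refine sup_le le_sup_left (iSup_le fun F => ?_)
    obtain ⟨g, hg⟩ := hV.conj hR hE F.2
    rw [hg]
    exact (le_iSup (fun g : L => cg g E) g).trans le_sup_right
  · exact sup_le hV.lt.le (iSup_le fun g => (hE.cg hV.normal g).le)

/-- `C_V(V) = Z`. -/
theorem MinN.inf_centralizer : V ⊓ Subgroup.centralizer (V : Set L) = Subgroup.center L :=
  (hV.lay hR).cen_layer

/-- An element of `V` that commutes with all components is central. -/
theorem MinN.mem_center {x : L} (hx : x ∈ V)
    (h : ∀ E, Cmp V E → ∀ y ∈ E, x * y = y * x) : x ∈ Subgroup.center L := by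
  rw [← hV.inf_centralizer hR]
  refine ⟨hx, ?_⟩
  have h1 : V ≤ Subgroup.centralizer {x} := by
    conv_lhs => rw [hV.eq_sup_cmp hR]
    refine sup_le (fun z hz => ?_) (iSup_le fun E y hy => ?_)
    · rw [Subgroup.mem_centralizer_iff]
      rintro w hw
      rw [Set.mem_singleton_iff] at hw
      rw [hw]
      exact Subgroup.mem_center_iff.1 hz x
    · rw [Subgroup.mem_centralizer_iff]
      rintro w hw
      rw [Set.mem_singleton_iff] at hw
      rw [hw]
      exact h E.1 E.2 y hy
  show x ∈ Subgroup.centralizer (V : Set L)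
  rw [Subgroup.mem_centralizer_iff]
  intro y hy
  exact (Subgroup.mem_centralizer_iff.1 (h1 hy) x rfl).symm

/-- The components are independent modulo the centre. -/
theorem MinN.inf_eq (J : Set (Subgroup L)) :
    (Subgroup.center L ⊔ ⨆ E : {E // Cmp V E ∧ E ∈ J}, E.1) ⊓
      (Subgroup.center L ⊔ ⨆ E : {E // Cmp V E ∧ E ∉ J}, E.1) = Subgroup.center L := by
  apply le_antisymm
  · intro x hx
    have hcom : ∀ (S : Set (Subgroup L)) (x : L), x ∈ Subgroup.center L ⊔
        ⨆ E : {E // Cmp V E ∧ E ∈ S}, E.1 → ∀ F, Cmp V F → F ∉ S → ∀ y ∈ F, x * y = y * x := by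
      intro S x hx F hF hFS y hy
      have h1 : (Subgroup.center L ⊔ ⨆ E : {E // Cmp V E ∧ E ∈ S}, E.1) ≤
          Subgroup.centralizer {y} := by
        refine sup_le (fun z hz => ?_) (iSup_le fun E z hz => ?_)
        · rw [Subgroup.mem_centralizer_iff]
          rintro w hw
          rw [Set.mem_singleton_iff] at hw
          rw [hw]
          exact Subgroup.mem_center_iff.1 hz y
        · rw [Subgroup.mem_centralizer_iff]
          rintro w hw
          rw [Set.mem_singleton_iff] at hw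
          rw [hw]
          exact hV.commute hR hF E.2.1 (fun h => hFS (h ▸ E.2.2)) y hy z hz
      exact (Subgroup.mem_centralizer_iff.1 (h1 hx) y rfl).symm
    apply hV.mem_center hR
    · exact (sup_le hV.lt.le (iSup_le fun E => E.2.1.le)) hx.1
    · intro E hE y hy
      by_cases hEJ : E ∈ J
      · refine hcom Jᶜ x ?_ E hE (not_not.2 hEJ) y hy
        exact hx.2
      · exact hcom J x hx.1 E hE hEJ y hy
  · exact le_inf le_sup_left le_sup_left

omit hV in
/-- Normal `p'`-subgroups of normal subgroups are central. -/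
theorem Rd.le_center_of_norBy {W M : Subgroup L} (hW : W.Normal) (hM : M ≤ W)
    (hn : NorBy W M) (hp : ¬ p ∣ Nat.card M) : M ≤ Subgroup.center L := by
  obtain ⟨O, hOn, hOp, hOmax⟩ := Ps.exists_core (p := p) ↥W
  have h1 : (O.map W.subtype).Normal := Ps.normal_map_of_max hW (fun L => ¬ p ∣ Nat.card L)
    (fun f L hL => by
      rwa [Nat.card_congr (L.equivMapOfInjective f.toMonoidHom f.injective).toEquiv.symm])
    hOn hOp hOmax
  have h2 : ¬ p ∣ Nat.card (O.map W.subtype) := by
    rwa [Nat.card_congr (O.equivMapOfInjective W.subtype W.subtype_injective).toEquiv.symm]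
  refine le_trans ?_ (hR.central _ h1 h2)
  have h3 : (M.subgroupOf W).Normal := by
    refine ⟨fun n hn' g => ?_⟩
    rw [Subgroup.mem_subgroupOf] at hn' ⊢
    exact hn g.1 g.2 _ hn'
  have h4 : ¬ p ∣ Nat.card (M.subgroupOf W) := by
    rwa [Nat.card_congr (Subgroup.subgroupOfEquivOfLe hM).toEquiv]
  intro x hx
  exact ⟨⟨x, hM hx⟩, hOmax _ h3 h4 (Subgroup.mem_subgroupOf.2 hx), rfl⟩

/-- The order of a component is divisible by `p`. -/
theorem MinN.dvd_card {E : Subgroup L} (hE : Cmp V E) : p ∣ Nat.card E := by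
  by_contra hcon
  exact hE.qs.not_le_center (hR.le_center_of_norBy hV.normal hE.le (norBy_iff.2 hE.nor) hcon)

/-- A component contains a nontrivial p-subgroup. -/
theorem MinN.exists_pgroup {E : Subgroup L} (hE : Cmp V E) :
    ∃ P : Subgroup L, P ≤ E ∧ IsPGroup p P ∧ P ≠ ⊥ := by
  obtain ⟨x, hx⟩ := exists_prime_orderOf_dvd_card' p (hV.dvd_card hR hE)
  refine ⟨Subgroup.zpowers (x : L), ?_, ?_, ?_⟩
  · rw [Subgroup.zpowers_le]
    exact x.2
  · rw [IsPGroup.iff_card]
    refine ⟨1, ?_⟩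
    rw [Nat.card_zpowers, Subgroup.orderOf_coe, hx, pow_one]
  · rw [Ne, Subgroup.zpowers_eq_bot]
    intro h1
    have h2 : x = 1 := Subtype.ext h1
    rw [h2, orderOf_one] at hx
    exact (Fact.out : p.Prime).one_lt.ne hx

/-- `E ∩ C(E) = E ∩ Z`. -/
theorem MinN.cmp_inf_centralizer {E : Subgroup L} (hE : Cmp V E) :
    E ⊓ Subgroup.centralizer (E : Set L) ≤ Subgroup.center L := by
  intro x hx
  apply hV.mem_center hR (hE.le hx.1)
  intro F hF y hy
  by_cases hEF : E = F
  · exact (Subgroup.mem_centralizer_iff.1 hx.2 y (hEF ▸ hy)).symm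
  · exact hV.commute hR hE hF hEF x hx.1 y hy

/-- (G5) a normal component -/
theorem MinN.eq_sup_of_normal {E : Subgroup L} (hE : Cmp V E) (hn : E.Normal) :
    V = Subgroup.center L ⊔ E := by
  conv_lhs => rw [hV.eq_sup hR hE]
  have h1 : (⨆ g : L, cg g E) = E := by
    apply le_antisymm
    · exact iSup_le fun g => (cj_of_normal hn g).le
    · have := le_iSup (fun g : L => cg g E) 1
      rwa [cj_one] at this
  rw [h1]

/-- (G5) the centralizer of a normal component -/
theorem MinN.centralizer_of_normal {E : Subgroup L} (hE : Cmp V E) (hn : E.Normal) :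
    Subgroup.centralizer (E : Set L) = Subgroup.centralizer (V : Set L) := by
  apply le_antisymm
  · intro x hx
    rw [Subgroup.mem_centralizer_iff] at hx ⊢
    intro y hy
    have hy' : y ∈ V := hy
    rw [hV.eq_sup_of_normal hR hE hn] at hy'
    obtain ⟨z, hz, e, he, rfl⟩ := (hV.lay hR).mem_sup_cen hy'
    have h1 := Subgroup.mem_center_iff.1 hz x
    rw [mul_assoc, hx e he, ← mul_assoc, ← h1, mul_assoc]
  · exact Subgroup.centralizer_le hE.le

/-- An element that centralizes `V` modulo the centre centralizes `V`. -/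
theorem MinN.centralizes {w : L} (h : ∀ v ∈ V, v * w * v⁻¹ * w⁻¹ ∈ Subgroup.center L) :
    w ∈ Subgroup.centralizer (V : Set L) := by
  have hl := hV.lay hR
  have h1 : V ≤ Subgroup.centralizer {w} := by
    conv_lhs => rw [← hl.iSup_fac]
    refine iSup_le fun W y hy => ?_
    rw [Subgroup.mem_centralizer_iff]
    rintro v hv
    rw [Set.mem_singleton_iff] at hv
    rw [hv]
    exact (hl.commute_of_mod W.2 w (fun x hx => h x (W.2.le hx)) y hy).symm
  rw [Subgroup.mem_centralizer_iff]
  intro y hy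
  exact (Subgroup.mem_centralizer_iff.1 (h1 hy) w rfl).symm

/-- (G7) if `C(V) = Z` then every noncentral normal subgroup contains `V` modulo the centre -/
theorem MinN.le_sup_of_normal (hC : Subgroup.centralizer (V : Set L) = Subgroup.center L)
    {W : Subgroup L} (hW : W.Normal) (hWZ : ¬ W ≤ Subgroup.center L) :
    V ≤ Subgroup.center L ⊔ W := by
  have hVn := hV.normal
  have hn : ((Subgroup.center L ⊔ W) ⊓ V).Normal := Subgroup.normal_inf_normal _ _
  rcases hV.min _ hn (le_inf le_sup_left hV.lt.le) inf_le_right with h1 | h1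
  · exfalso
    apply hWZ
    rw [← hC]
    intro w hw
    apply hV.centralizes hR
    intro v hv
    rw [← h1]
    refine ⟨(le_sup_right : W ≤ _) ?_, ?_⟩
    · exact W.mul_mem (hW.conj_mem w hw v) (W.inv_mem hw)
    · have e : v * w * v⁻¹ * w⁻¹ = v * (w * v⁻¹ * w⁻¹) := by group
      rw [e]
      exact V.mul_mem hv (hVn.conj_mem _ (V.inv_mem hv) w)
  · rw [inf_eq_right] at h1
    exact h1

/-- (G7) if `C(V) = Z` then every noncentral normal subgroup contains `[V, V]` -/
theorem MinN.commutator_le_of_normal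
    (hC : Subgroup.centralizer (V : Set L) = Subgroup.center L)
    {W : Subgroup L} (hW : W.Normal) (hWZ : ¬ W ≤ Subgroup.center L) : ⁅V, V⁆ ≤ W := by
  have hl := hV.lay hR
  have h1 := hV.le_sup_of_normal hR hC hW hWZ
  have h2 : Subgroup.center L ⊔ (V ⊓ W) = V := by
    apply le_antisymm (sup_le hV.lt.le inf_le_left)
    intro v hv
    obtain ⟨z, hz, w, hw, rfl⟩ := hl.mem_sup_cen (h1 hv)
    refine Subgroup.mul_mem _ ((le_sup_left : Subgroup.center L ≤ _) hz)
      ((le_sup_right : V ⊓ W ≤ _) ⟨?_, hw⟩)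
    have e : w = z⁻¹ * (z * w) := by group
    rw [e]
    exact V.mul_mem (V.inv_mem (hV.lt.le hz)) hv
  rw [hl.comm_eq h2, Subgroup.commutator_le]
  intro a ha b hb
  exact W.mul_mem (W.mul_mem (W.mul_mem ha.2 hb.2) (W.inv_mem ha.2)) (W.inv_mem hb.2)

/-- (G7) if `C(V) = Z` then every noncentral normal subgroup contains the components of `V` -/
theorem MinN.cmp_le_of_normal (hC : Subgroup.centralizer (V : Set L) = Subgroup.center L)
    {W E : Subgroup L} (hW : W.Normal) (hWZ : ¬ W ≤ Subgroup.center L) (hE : Cmp V E) : E ≤ W := by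
  refine le_trans ?_ (hV.commutator_le_of_normal hR hC hW hWZ)
  rw [← hE.qs.perf]
  exact Subgroup.commutator_mono hE.le hE.le

/-- There are at least two components if a component is not normal. -/
theorem MinN.commute_of_ne {E : Subgroup L} (hE : Cmp V E) (g : L) :
    cg g E = E ∨ ∀ x ∈ cg g E, ∀ y ∈ E, x * y = y * x := by
  by_cases h : cg g E = E
  · exact Or.inl h
  · exact Or.inr (hV.commute hR (hE.cg hV.normal g) hE h)

end main

/-- (G9) if all commutators of elements of `L` normalise all conjugates of `E` then the normaliser of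
`E` normalises all conjugates of `E`. -/
theorem normalizer_le_of_comm {E : Subgroup L}
    (hab : ∀ x y g : L, x * y * x⁻¹ * y⁻¹ ∈ Subgroup.normalizer (cg g E : Set L)) (g : L) :
    Subgroup.normalizer (cg g E : Set L) = Subgroup.normalizer (E : Set L) := by
  have key : ∀ h : L, h ∈ Subgroup.normalizer (cg g E : Set L) ↔
      g⁻¹ * h * g ∈ Subgroup.normalizer (E : Set L) := by
    intro h
    have := cg_normalizer g E
    rw [← mem_cg, this]
  ext h
  rw [key]
  have h1 := hab g⁻¹ h 1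
  rw [cj_one] at h1
  constructor
  · intro h2
    have e : h = (g⁻¹ * h * g⁻¹⁻¹ * h⁻¹)⁻¹ * (g⁻¹ * h * g) := by group
    rw [e]
    exact Subgroup.mul_mem _ (Subgroup.inv_mem _ h1) h2
  · intro h2
    have e : g⁻¹ * h * g = (g⁻¹ * h * g⁻¹⁻¹ * h⁻¹) * h := by group
    rw [e]
    exact Subgroup.mul_mem _ h1 h2

end Pool.Agent.Lib.P0c8ca5.Jj
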