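import Pool.Agent.Lib.P0c8ca5J.Comp

/-!
# The kernel of the action on the components, and p-solvability

`PQ p N`: a chain of normal subgroups from `N` to the whole group whose factors are p-groups or p'-groups.
`Ker V`: the elements that normalise all components of `V`.
-/

set_option autoImplicit false

namespace Pool.Agent.Lib.P0c8ca5.Jj

open Subgroup Ps

universe u

/-- a chain of normal subgroups from `N` to `⊤` with p-factors and p'-factors -/
def PQ (p : ℕ) {G : Type*} [Group G] (N : Subgroup G) : Prop :=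
  ∃ (n : ℕ) (s : ℕ → Subgroup G), s 0 = N ∧ s n = ⊤ ∧ (∀ i, (s i).Normal) ∧
    ∀ i < n, s i ≤ s (i + 1) ∧ ((∀ x ∈ s (i + 1), ∃ m : ℕ, x ^ p ^ m ∈ s i) ∨
      ∀ x ∈ s (i + 1), ∃ m : ℕ, ¬ p ∣ m ∧ x ^ m ∈ s i)

theorem PQ.normal {p : ℕ} {G : Type*} [Group G] {N : Subgroup G} (h : PQ p N) : N.Normal := by
  obtain ⟨n, s, h0, -, hs, -⟩ := h
  exact h0 ▸ hs 0

theorem PQ.top (p : ℕ) (G : Type*) [Group G] : PQ p (⊤ : Subgroup G) :=
  ⟨0, fun _ => ⊤, rfl, rfl, fun _ => inferInstance, fun i hi => absurd hi (Nat.not_lt_zero i)⟩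

theorem PQ.inf {p : ℕ} {G : Type*} [Group G] {N₁ N₂ : Subgroup G} (h1 : PQ p N₁)
    (h2 : PQ p N₂) : PQ p (N₁ ⊓ N₂) := by
  have hN1 := h1.normal
  obtain ⟨n, s, s0, sn, hs, hst⟩ := h1
  obtain ⟨m, t, t0, tm, ht, htt⟩ := h2
  refine ⟨m + n, fun i => if i < m then N₁ ⊓ t i else s (i - m), ?_, ?_, ?_, ?_⟩
  · by_cases hm : 0 < m
    · show (if 0 < m then N₁ ⊓ t 0 else s (0 - m)) = _
      rw [if_pos hm, t0]
    · have hm0 : m = 0 := by omega
      subst hm0
      show (if 0 < 0 then N₁ ⊓ t 0 else s (0 - 0)) = _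
      rw [if_neg (lt_irrefl 0), Nat.sub_zero, s0, ← t0, tm, inf_top_eq]
  · show (if m + n < m then N₁ ⊓ t (m + n) else s (m + n - m)) = ⊤
    rw [if_neg (by omega), Nat.add_sub_cancel_left, sn]
  · intro i
    show (if i < m then N₁ ⊓ t i else s (i - m)).Normal
    split_ifs
    · have := ht i
      exact Subgroup.normal_inf_normal _ _
    · exact hs _
  · intro i hi
    by_cases him : i < m
    · obtain ⟨h1, h2⟩ := htt i him
      have e1 : (fun i => if i < m then N₁ ⊓ t i else s (i - m)) (i + 1) = N₁ ⊓ t (i + 1) := by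
        show (if i + 1 < m then N₁ ⊓ t (i + 1) else s (i + 1 - m)) = _
        by_cases h3 : i + 1 < m
        · rw [if_pos h3]
        · have h4 : i + 1 = m := by omega
          rw [if_neg h3, h4, Nat.sub_self, s0, tm, inf_top_eq]
      have e0 : (fun i => if i < m then N₁ ⊓ t i else s (i - m)) i = N₁ ⊓ t i := if_pos him
      rw [e1, e0]
      refine ⟨inf_le_inf_left _ h1, ?_⟩
      rcases h2 with h2 | h2
      · left
        intro x hx
        obtain ⟨r, hr⟩ := h2 x hx.2
        exact ⟨r, N₁.pow_mem hx.1 _, hr⟩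
      · right
        intro x hx
        obtain ⟨r, hr, hr'⟩ := h2 x hx.2
        exact ⟨r, hr, N₁.pow_mem hx.1 _, hr'⟩
    · have e1 : (fun i => if i < m then N₁ ⊓ t i else s (i - m)) (i + 1) = s (i - m + 1) := by
        show (if i + 1 < m then N₁ ⊓ t (i + 1) else s (i + 1 - m)) = _
        rw [if_neg (by omega), Nat.sub_add_comm (by omega)]
      have e0 : (fun i => if i < m then N₁ ⊓ t i else s (i - m)) i = s (i - m) := if_neg him
      rw [e1, e0]
      exact hst (i - m) (by omega)

theorem PQ.of_hom {p : ℕ} {G H : Type*} [Group G] [Group H] (f : G →* H) (hH : PSolv p H) :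
    PQ p f.ker := by
  obtain ⟨n, s, s0, sn, hs, hst⟩ := hH
  refine ⟨n, fun i => (s i).comap f, ?_, ?_, fun i => (hs i).comap f, ?_⟩
  · show (s 0).comap f = _
    rw [s0, MonoidHom.comap_bot]
  · show (s n).comap f = _
    rw [sn, Subgroup.comap_top]
  · intro i hi
    obtain ⟨h1, h2⟩ := hst i hi
    refine ⟨Subgroup.comap_mono h1, ?_⟩
    rcases h2 with h2 | h2
    · left
      intro x hx
      obtain ⟨m, hm⟩ := h2 (f x) hx
      refine ⟨m, ?_⟩
      show f (x ^ p ^ m) ∈ s i
      rwa [map_pow]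
    · right
      intro x hx
      obtain ⟨m, hm, hm'⟩ := h2 (f x) hx
      refine ⟨m, hm, ?_⟩
      show f (x ^ m) ∈ s i
      rwa [map_pow]

theorem PQ.psolv {p : ℕ} {G H : Type*} [Group G] [Group H] (f : G →* H)
    (hf : Function.Surjective f) {N : Subgroup G} (hN : PQ p N) (hNf : N ≤ f.ker) :
    PSolv p H := by
  obtain ⟨n, s, s0, sn, hs, hst⟩ := hN
  refine ⟨n, fun i => (s i).map f, ?_, ?_, fun i => (hs i).map f hf, ?_⟩
  · show (s 0).map f = _
    rw [s0, Subgroup.map_eq_bot_iff]
    exact hNf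
  · show (s n).map f = _
    rw [sn, Subgroup.map_top_of_surjective f hf]
  · intro i hi
    obtain ⟨h1, h2⟩ := hst i hi
    refine ⟨Subgroup.map_mono h1, ?_⟩
    rcases h2 with h2 | h2
    · left
      rintro _ ⟨x, hx, rfl⟩
      obtain ⟨m, hm⟩ := h2 x hx
      exact ⟨m, ⟨_, hm, map_pow f x _⟩⟩
    · right
      rintro _ ⟨x, hx, rfl⟩
      obtain ⟨m, hm, hm'⟩ := h2 x hx
      exact ⟨m, hm, ⟨_, hm', map_pow f x _⟩⟩

theorem PQ.finset_inf {p : ℕ} {G : Type*} [Group G] {ι : Type*} [DecidableEq ι] (N : ι → Subgroup G)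
    (h : ∀ i, PQ p (N i)) (S : Finset ι) : PQ p (S.inf N) := by
  induction S using Finset.induction_on with
  | empty => rw [Finset.inf_empty]; exact PQ.top p G
  | insert i S hi ih => rw [Finset.inf_insert]; exact (h i).inf ih

theorem PQ.iInf {p : ℕ} {G : Type*} [Group G] {ι : Type*} [Finite ι] (N : ι → Subgroup G)
    (h : ∀ i, PQ p (N i)) : PQ p (⨅ i, N i) := by
  classical
  have := Fintype.ofFinite ι
  have h1 := PQ.finset_inf N h Finset.univ
  rwa [Finset.inf_univ_eq_iInf] at h1

section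

variable {L : Type u} [Group L]

/-- the elements that normalise all conjugates of `E` -/
def Ker (E : Subgroup L) : Subgroup L := ⨅ g : L, Subgroup.normalizer (cg g E : Set L)

theorem Ker.le (E : Subgroup L) (g : L) : Ker E ≤ Subgroup.normalizer (cg g E : Set L) :=
  iInf_le _ g

theorem Ker.mem_iff {E : Subgroup L} {x : L} :
    x ∈ Ker E ↔ ∀ g : L, g⁻¹ * x * g ∈ Subgroup.normalizer (E : Set L) := by
  unfold Ker
  rw [Subgroup.mem_iInf]
  refine forall_congr' fun g => ?_
  rw [← cg_normalizer, mem_cg]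

theorem Ker.normal (E : Subgroup L) : (Ker E).Normal := by
  constructor
  intro x hx a
  rw [Ker.mem_iff] at hx ⊢
  intro g
  have h1 := hx (a⁻¹ * g)
  have e : g⁻¹ * (a * x * a⁻¹) * g = (a⁻¹ * g)⁻¹ * x * (a⁻¹ * g) := by group
  rw [e]
  exact h1

theorem Ker.le_normalizer (E : Subgroup L) : Ker E ≤ Subgroup.normalizer (E : Set L) := by
  have := Ker.le E 1
  rwa [cj_one] at this

/-- `N(E) ≤ N(E C(E))` -/
theorem normalizer_le_normalizer (E : Subgroup L) : Subgroup.normalizer (E : Set L) ≤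
    Subgroup.normalizer ((E ⊔ Subgroup.centralizer (E : Set L) : Subgroup L) : Set L) := by
  have h0 : NorBy (Subgroup.normalizer (E : Set L)) E := norBy_iff.2 le_rfl
  apply norBy_iff.1
  apply NorBy.sup h0
  intro g hg x hx
  rw [Subgroup.mem_centralizer_iff] at hx ⊢
  intro y hy
  have h1 := h0 g⁻¹ (Subgroup.inv_mem _ hg) y hy
  rw [inv_inv] at h1
  have h2 := hx _ h1
  calc y * (g * x * g⁻¹) = g * (g⁻¹ * y * g * x) * g⁻¹ := by group
    _ = g * (x * (g⁻¹ * y * g)) * g⁻¹ := by rw [h2]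
    _ = g * x * g⁻¹ * y := by group

/-- the action of the kernel on `cg g E` modulo inner automorphisms -/
def kerHom (E : Subgroup L) (g : L) :
    Ker E →* ↥(sec (Subgroup.normalizer (E : Set L)) (E ⊔ Subgroup.centralizer (E : Set L))) where
  toFun x := ⟨QuotientGroup.mk' _ ⟨g⁻¹ * x.1 * g, normalizer_le_normalizer E (Ker.mem_iff.1 x.2 g)⟩,
    ⟨⟨g⁻¹ * x.1 * g, normalizer_le_normalizer E (Ker.mem_iff.1 x.2 g)⟩, by
      show _ ∈ Subgroup.subgroupOf _ _
      rw [Subgroup.mem_subgroupOf]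
      exact Ker.mem_iff.1 x.2 g, rfl⟩⟩
  map_one' := by
    apply Subtype.ext
    show QuotientGroup.mk' _ _ = 1
    have e : (⟨g⁻¹ * (1 : L) * g, normalizer_le_normalizer E (Ker.mem_iff.1 (Ker E).one_mem g)⟩ :
        ↥(Subgroup.normalizer ((E ⊔ Subgroup.centralizer (E : Set L) : Subgroup L) : Set L))) = 1 :=
      Subtype.ext (by show g⁻¹ * 1 * g = 1; group)
    exact (congrArg (QuotientGroup.mk' _) e).trans (map_one _)
  map_mul' x y := by
    apply Subtype.ext
    show QuotientGroup.mk' _ _ = QuotientGroup.mk' _ _ * QuotientGroup.mk' _ _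
    rw [← map_mul]
    congr 1
    apply Subtype.ext
    show g⁻¹ * (x.1 * y.1) * g = g⁻¹ * x.1 * g * (g⁻¹ * y.1 * g)
    group

theorem mem_ker_kerHom {E : Subgroup L} {g : L} {x : Ker E} :
    x ∈ (kerHom E g).ker ↔ g⁻¹ * x.1 * g ∈ E ⊔ Subgroup.centralizer (E : Set L) := by
  rw [MonoidHom.mem_ker, ← Subtype.coe_inj]
  show QuotientGroup.mk' _ _ = 1 ↔ _
  rw [← MonoidHom.mem_ker, QuotientGroup.ker_mk', Subgroup.mem_subgroupOf]

end

section main

variable {L : Type u} [Group L]
variable {p : ℕ} [Fact p.Prime] [Finite L] (hR : Rd p L) {V : Subgroup L} (hV : MinN V)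
include hR hV

theorem MinN.le_ker {E : Subgroup L} (hE : Cmp V E) : V ≤ Ker E :=
  le_iInf fun g => (hE.cg hV.normal g).nor

/-- `V ≤ E C(E)` -/
theorem MinN.le_sup_centralizer {E : Subgroup L} (hE : Cmp V E) :
    V ≤ E ⊔ Subgroup.centralizer (E : Set L) := by
  conv_lhs => rw [hV.eq_sup_cmp hR]
  refine sup_le ?_ (iSup_le fun F => ?_)
  · refine le_trans (fun z hz => ?_) le_sup_right
    rw [Subgroup.mem_centralizer_iff]
    exact fun y _ => Subgroup.mem_center_iff.1 hz y
  · by_cases h : F.1 = E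
    · rw [h]; exact le_sup_left
    · refine le_trans (fun z hz => ?_) le_sup_right
      rw [Subgroup.mem_centralizer_iff]
      exact fun y hy => (hV.commute hR F.2 hE h z hz y hy).symm

/-- An element that acts on every component as an inner automorphism is in `V C(V)`. -/
theorem MinN.mem_of_inner {x : L}
    (hx : ∀ F, Cmp V F → x ∈ F ⊔ Subgroup.centralizer (F : Set L)) :
    ∃ v ∈ V, v⁻¹ * x ∈ Subgroup.centralizer (V : Set L) := by
  classical
  have key : ∀ S : Finset (Subgroup L), (∀ F ∈ S, Cmp V F) →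
      ∃ v ∈ V, (∀ F ∈ S, ∀ y ∈ F, v⁻¹ * x * y = y * (v⁻¹ * x)) ∧
        ∀ F, Cmp V F → F ∉ S → ∀ y ∈ F, v * y = y * v := by
    intro S
    induction S using Finset.induction_on with
    | empty =>
      intro _
      refine ⟨1, V.one_mem, fun F hF => absurd hF (Finset.notMem_empty F), fun F _ _ y _ => ?_⟩
      rw [one_mul, mul_one]
    | insert E S hES ih =>
      intro hS
      obtain ⟨v, hv, h1, h2⟩ := ih fun F hF => hS F (Finset.mem_insert_of_mem hF)
      have hE := hS E (Finset.mem_insert_self E S)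
      obtain ⟨e, he, c, hc, rfl⟩ := mem_sup_of_commute (fun y hy z hz =>
        (Subgroup.mem_centralizer_iff.1 hz y hy).symm) x (hx E hE)
      refine ⟨v * e, V.mul_mem hv (hE.le he), ?_, ?_⟩
      · intro F hF y hy
        rcases Finset.mem_insert.1 hF with rfl | hF
        · have a1 := h2 F hE hES e he
          have a2 := h2 F hE hES y hy
          have a3 := Subgroup.mem_centralizer_iff.1 hc y hy
          have e1 : (v * e)⁻¹ * (e * c) = v⁻¹ * c := by
            rw [a1]; group
          rw [e1]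
          have a4 : v⁻¹ * y = y * v⁻¹ := by
            calc v⁻¹ * y = v⁻¹ * (y * v) * v⁻¹ := by group
              _ = v⁻¹ * (v * y) * v⁻¹ := by rw [a2]
              _ = y * v⁻¹ := by group
          rw [mul_assoc, ← a3, ← mul_assoc, a4, mul_assoc]
        · have hFE : E ≠ F := fun h => hES (h ▸ hF)
          have a1 := h1 F hF y hy
          have a2 := hV.commute hR hE (hS F (Finset.mem_insert_of_mem hF)) hFE e⁻¹ (E.inv_mem he) y hy
          have e1 : (v * e)⁻¹ * (e * c) = e⁻¹ * (v⁻¹ * (e * c)) := by group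
          rw [e1, mul_assoc, a1, ← mul_assoc, a2, mul_assoc]
      · intro F hF hFS y hy
        rw [Finset.mem_insert, not_or] at hFS
        have a1 := h2 F hF hFS.2 y hy
        have a2 := hV.commute hR hE hF (Ne.symm hFS.1) e he y hy
        rw [mul_assoc, a2, ← mul_assoc, a1, mul_assoc]
  obtain ⟨v, hv, h1, -⟩ := key (Set.toFinite {F : Subgroup L | Cmp V F}).toFinset (fun F hF => by
    simpa using hF)
  refine ⟨v, hv, ?_⟩
  have h3 : V ≤ Subgroup.centralizer {v⁻¹ * x} := by
    conv_lhs => rw [hV.eq_sup_cmp hR]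
    refine sup_le (fun z hz => ?_) (iSup_le fun F y hy => ?_)
    · rw [Subgroup.mem_centralizer_iff]
      rintro w hw
      rw [Set.mem_singleton_iff] at hw
      rw [hw]
      exact Subgroup.mem_center_iff.1 hz _
    · rw [Subgroup.mem_centralizer_iff]
      rintro w hw
      rw [Set.mem_singleton_iff] at hw
      rw [hw]
      exact h1 F.1 (by simpa using F.2) y hy
  rw [Subgroup.mem_centralizer_iff]
  intro y hy
  exact (Subgroup.mem_centralizer_iff.1 (h3 hy) _ rfl).symm

/-- If `C(V) = Z` then `V` is the set of the elements that act on every component as inner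
automorphisms. -/
theorem MinN.mem_iff_inner (hC : Subgroup.centralizer (V : Set L) = Subgroup.center L)
    {E : Subgroup L} (hE : Cmp V E) {x : L} :
    x ∈ V ↔ ∀ g : L, g⁻¹ * x * g ∈ E ⊔ Subgroup.centralizer (E : Set L) := by
  constructor
  · intro hx g
    apply hV.le_sup_centralizer hR hE
    have := hV.normal.conj_mem x hx g⁻¹
    rwa [inv_inv] at this
  · intro hx
    obtain ⟨v, hv, h1⟩ := hV.mem_of_inner hR (x := x) (by
      intro F hF
      obtain ⟨g, rfl⟩ := hV.conj hR hE hF
      have h2 := hx g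
      obtain ⟨e, he, c, hc, h3⟩ := mem_sup_of_commute (fun y hy z hz =>
        (Subgroup.mem_centralizer_iff.1 hz y hy).symm) _ h2
      have e1 : x = (g * e * g⁻¹) * (g * c * g⁻¹) := by
        calc x = g * (g⁻¹ * x * g) * g⁻¹ := by group
          _ = g * (e * c) * g⁻¹ := by rw [h3]
          _ = _ := by group
      rw [e1]
      refine Subgroup.mul_mem _ ((le_sup_left : cg g E ≤ _) ?_)
        ((le_sup_right : Subgroup.centralizer (cg g E : Set L) ≤ _) ?_)
      · rw [mem_cj]
        have e2 : g⁻¹ * (g * e * g⁻¹) * g = e := by group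
        rwa [e2]
      · rw [Subgroup.mem_centralizer_iff]
        intro y hy
        have h4 := Subgroup.mem_centralizer_iff.1 hc _ (mem_cj.1 hy)
        calc y * (g * c * g⁻¹) = g * (g⁻¹ * y * g * c) * g⁻¹ := by group
          _ = g * (c * (g⁻¹ * y * g)) * g⁻¹ := by rw [h4]
          _ = g * c * g⁻¹ * y := by group)
    rw [hC] at h1
    have e : x = v * (v⁻¹ * x) := by group
    rw [e]
    exact V.mul_mem hv (hV.lt.le h1)

/-- (G6) -/
theorem MinN.pq_ker (hC : Subgroup.centralizer (V : Set L) = Subgroup.center L)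
    {E : Subgroup L} (hE : Cmp V E)
    (hs : PSolv p (sec (Subgroup.normalizer (E : Set L)) (E ⊔ Subgroup.centralizer (E : Set L)))) :
    PQ p (V.subgroupOf (Ker E)) := by
  have h1 : V.subgroupOf (Ker E) = ⨅ g : L, (kerHom E g).ker := by
    ext x
    rw [Subgroup.mem_subgroupOf, Subgroup.mem_iInf, hV.mem_iff_inner hR hC hE]
    exact forall_congr' fun g => mem_ker_kerHom.symm
  rw [h1]
  exact PQ.iInf _ fun g => PQ.of_hom _ hs

/-- (G6) if `C(V) = Z`, `N(E) / E C(E)` is p-solvable and the group of the permutations of the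
components is p-solvable, then `L / V` is p-solvable. -/
theorem MinN.psolv (hC : Subgroup.centralizer (V : Set L) = Subgroup.center L)
    {E : Subgroup L} (hE : Cmp V E)
    (hs : PSolv p (sec (Subgroup.normalizer (E : Set L)) (E ⊔ Subgroup.centralizer (E : Set L))))
    [hKn : (Ker E).Normal] (hK : PSolv p (L ⧸ Ker E)) [hVn : V.Normal] : PSolv p (L ⧸ V) := by
  have h1 := hV.pq_ker hR hC hE hs
  have h2 : PSolv p ↥((Ker E).map (QuotientGroup.mk' V)) := by
    refine h1.psolv ((QuotientGroup.mk' V).subgroupMap (Ker E))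
      ((QuotientGroup.mk' V).subgroupMap_surjective (Ker E)) ?_
    intro x hx
    rw [MonoidHom.mem_ker]
    apply Subtype.ext
    show QuotientGroup.mk' V x.1 = 1
    rw [← MonoidHom.mem_ker, QuotientGroup.ker_mk']
    exact Subgroup.mem_subgroupOf.1 hx
  have h3 : ((Ker E).map (QuotientGroup.mk' V)).Normal :=
    hKn.map _ (QuotientGroup.mk'_surjective V)
  refine psolv_ext _ (L ⧸ V) rfl ((Ker E).map (QuotientGroup.mk' V)) h2 ?_
  exact hK.of_equiv (QuotientGroup.quotientQuotientEquivQuotient V (Ker E)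
    (hV.le_ker hR hE)).symm

end main

end Pool.Agent.Lib.P0c8ca5.Jj
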