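import Pool.Agent.Lib.P0c8ca5J.MinNor

/-!
# Minimal normal subgroups modulo a central subgroup

`Lay Z V`: `Z` is a central subgroup of `A` and `V / Z` is a nonabelian minimal normal subgroup of
`A / Z`. `Fac Z V W`: `W / Z` is a minimal normal subgroup of `V / Z`.
Then the factors `W` are conjugate under `A`, commute pairwise, generate `V`, `W ∩ (Z W' W'' ...) = Z`,
`W / Z` is simple, and `E = [W, W]` is quasi-simple with `W = Z E`.
-/

set_option autoImplicit false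

namespace Pool.Agent.Lib.P0c8ca5.Jj

open Subgroup

variable {A : Type*} [Group A]

/-- `V / Z` is a nonabelian minimal normal subgroup of `A / Z`, `Z` central. -/
structure Lay (Z V : Subgroup A) : Prop where
  cen : Z ≤ Subgroup.center A
  normal : V.Normal
  lt : Z < V
  min : ∀ N : Subgroup A, N.Normal → Z ≤ N → N ≤ V → N = Z ∨ N = V
  na : ∃ x ∈ V, ∃ y ∈ V, x * y * x⁻¹ * y⁻¹ ∉ Z

/-- `W / Z` is a minimal normal subgroup of `V / Z`. -/
structure Fac (Z V W : Subgroup A) : Prop where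
  le : W ≤ V
  lt : Z < W
  nor : NorBy V W
  min : ∀ N : Subgroup A, Z ≤ N → N ≤ W → NorBy V N → N = Z ∨ N = W

section quot

variable {Z : Subgroup A} [hZn : Z.Normal]

theorem mem_comap_map {V : Subgroup A} (h : Z ≤ V) :
    (V.map (QuotientGroup.mk' Z)).comap (QuotientGroup.mk' Z) = V := by
  rw [Subgroup.comap_map_eq, QuotientGroup.ker_mk', sup_eq_left.2 h]

theorem map_comap_mk (S : Subgroup (A ⧸ Z)) :
    (S.comap (QuotientGroup.mk' Z)).map (QuotientGroup.mk' Z) = S :=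
  Subgroup.map_comap_eq_self_of_surjective (QuotientGroup.mk'_surjective Z) S

theorem le_comap_mk (S : Subgroup (A ⧸ Z)) : Z ≤ S.comap (QuotientGroup.mk' Z) := by
  intro x hx
  show QuotientGroup.mk' Z x ∈ S
  have : QuotientGroup.mk' Z x = 1 := (QuotientGroup.eq_one_iff x).2 hx
  rw [this]
  exact S.one_mem

theorem NorBy.map {V N : Subgroup A} (h : NorBy V N) :
    NorBy (V.map (QuotientGroup.mk' Z)) (N.map (QuotientGroup.mk' Z)) := by
  rintro _ ⟨g, hg, rfl⟩ _ ⟨x, hx, rfl⟩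
  exact ⟨g * x * g⁻¹, h g hg x hx, by simp⟩

theorem NorBy.comap {V : Subgroup A} {S : Subgroup (A ⧸ Z)}
    (h : NorBy (V.map (QuotientGroup.mk' Z)) S) : NorBy V (S.comap (QuotientGroup.mk' Z)) := by
  intro g hg x hx
  show QuotientGroup.mk' Z (g * x * g⁻¹) ∈ S
  have := h _ ⟨g, hg, rfl⟩ _ hx
  simpa using this

theorem Lay.minNor {V : Subgroup A} (h : Lay Z V) : MinNor (V.map (QuotientGroup.mk' Z)) := by
  have hV := h.normal
  refine ⟨hV.map _ (QuotientGroup.mk'_surjective Z), ?_, ?_⟩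
  · intro h0
    have h1 := congrArg (Subgroup.comap (QuotientGroup.mk' Z)) h0
    rw [mem_comap_map h.lt.le, MonoidHom.comap_bot, QuotientGroup.ker_mk'] at h1
    exact h.lt.ne h1.symm
  · intro N hN hNV
    have h1 : N.comap (QuotientGroup.mk' Z) ≤ V := by
      have := Subgroup.comap_mono (f := QuotientGroup.mk' Z) hNV
      rwa [mem_comap_map h.lt.le] at this
    rcases h.min _ (hN.comap _) (le_comap_mk N) h1 with h2 | h2
    · left
      rw [← map_comap_mk N, h2]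
      rw [Subgroup.map_eq_bot_iff, QuotientGroup.ker_mk']
    · right
      rw [← map_comap_mk N, h2]

theorem Lay.nonAb {V : Subgroup A} (h : Lay Z V) : NonAb (V.map (QuotientGroup.mk' Z)) := by
  obtain ⟨x, hx, y, hy, hxy⟩ := h.na
  refine ⟨_, ⟨x, hx, rfl⟩, _, ⟨y, hy, rfl⟩, fun h1 => hxy ?_⟩
  rw [← QuotientGroup.eq_one_iff]
  have h2 : ((x * y * x⁻¹ * y⁻¹ : A) : A ⧸ Z) = (x : A ⧸ Z) * y * (x : A ⧸ Z)⁻¹ * (y : A ⧸ Z)⁻¹ := rfl
  have h3 : (x : A ⧸ Z) * y = y * x := h1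
  rw [h2, h3]
  group

theorem fac_iff {V W : Subgroup A} (hV : Z ≤ V) (hW : Z ≤ W) :
    Fac Z V W ↔ MinIn (V.map (QuotientGroup.mk' Z)) (W.map (QuotientGroup.mk' Z)) := by
  constructor
  · intro h
    refine ⟨Subgroup.map_mono h.le, h.nor.map, ?_, ?_⟩
    · intro h0
      rw [Subgroup.map_eq_bot_iff, QuotientGroup.ker_mk'] at h0
      exact h.lt.not_ge h0
    · intro N hN hN'
      have h1 : N.comap (QuotientGroup.mk' Z) ≤ W := by
        have := Subgroup.comap_mono (f := QuotientGroup.mk' Z) hN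
        rwa [mem_comap_map hW] at this
      rcases h.min _ (le_comap_mk N) h1 hN'.comap with h2 | h2
      · left
        rw [← map_comap_mk N, h2, Subgroup.map_eq_bot_iff, QuotientGroup.ker_mk']
      · right
        rw [← map_comap_mk N, h2]
  · intro h
    refine ⟨?_, ?_, ?_, ?_⟩
    · have := Subgroup.comap_mono (f := QuotientGroup.mk' Z) h.le
      rwa [mem_comap_map hW, mem_comap_map hV] at this
    · refine lt_of_le_of_ne hW fun h1 => h.ne_bot ?_
      rw [Subgroup.map_eq_bot_iff, QuotientGroup.ker_mk', ← h1]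
    · have := h.nor.comap
      rwa [mem_comap_map hW] at this
    · intro N hZN hN hN'
      rcases h.min _ (Subgroup.map_mono hN) hN'.map with h2 | h2
      · left
        rw [Subgroup.map_eq_bot_iff, QuotientGroup.ker_mk'] at h2
        exact le_antisymm h2 hZN
      · right
        rw [← mem_comap_map hZN, h2, mem_comap_map hW]

theorem map_cj (g : A) (W : Subgroup A) :
    (cg g W).map (QuotientGroup.mk' Z) = cg (QuotientGroup.mk' Z g) (W.map (QuotientGroup.mk' Z)) := by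
  unfold cg
  rw [Subgroup.map_map, Subgroup.map_map]
  rfl

end quot

theorem normal_of_cen {Z : Subgroup A} (h : Z ≤ Subgroup.center A) : Z.Normal := by
  constructor
  intro x hx g
  have := Subgroup.mem_center_iff.1 (h hx) g
  rw [this]
  simpa using hx

theorem norBy_of_cen {Z V : Subgroup A} (h : Z ≤ Subgroup.center A) : NorBy V Z :=
  fun g _ x hx => (normal_of_cen h).conj_mem x hx g

section main

variable {Z V : Subgroup A} (h : Lay Z V)
include h

theorem Lay.zn : Z.Normal := normal_of_cen h.cen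

theorem Lay.comm {z : A} (hz : z ∈ Z) (x : A) : z * x = x * z :=
  (Subgroup.mem_center_iff.1 (h.cen hz) x).symm

/-- The factors are conjugate. -/
theorem Lay.conj {W W' : Subgroup A} (hW : Fac Z V W) (hW' : Fac Z V W') :
    ∃ g : A, W' = cg g W := by
  have := h.zn
  obtain ⟨g, hg⟩ := h.minNor.conj_of_minIn h.nonAb ((fac_iff h.lt.le hW.lt.le).1 hW)
    ((fac_iff h.lt.le hW'.lt.le).1 hW')
  obtain ⟨g, rfl⟩ := QuotientGroup.mk'_surjective Z g
  refine ⟨g, ?_⟩
  rw [← map_cj] at hg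
  have h1 : Z ≤ cg g W := by
    intro z hz
    rw [mem_cj, mul_assoc, h.comm hz, ← mul_assoc, inv_mul_cancel, one_mul]
    exact hW.lt.le hz
  rw [← mem_comap_map hW'.lt.le, hg, mem_comap_map h1]

theorem Lay.cg {W : Subgroup A} (hW : Fac Z V W) (g : A) : Fac Z V (cg g W) := by
  have := h.zn
  have h1 : Z ≤ P0c8ca5.cg g W := by
    intro z hz
    rw [mem_cj, mul_assoc, h.comm hz, ← mul_assoc, inv_mul_cancel, one_mul]
    exact hW.lt.le hz
  rw [fac_iff h.lt.le h1, map_cj]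
  exact ((fac_iff h.lt.le hW.lt.le).1 hW).cg h.minNor.normal _

theorem Lay.exists_fac [Finite A] : ∃ W, Fac Z V W := by
  have := h.zn
  obtain ⟨S, hS, -⟩ := exists_minIn (le_refl (V.map (QuotientGroup.mk' Z))) (fun g hg x hx => by
    exact mul_mem (mul_mem hg hx) (inv_mem hg)) h.minNor.ne_bot
  refine ⟨S.comap (QuotientGroup.mk' Z), ?_⟩
  rw [fac_iff h.lt.le (le_comap_mk S), map_comap_mk]
  exact hS

theorem Lay.iSup_fac [Finite A] : (⨆ W : {W // Fac Z V W}, W.1) = V := by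
  have := h.zn
  have h0 : Z ≤ ⨆ W : {W // Fac Z V W}, W.1 := by
    obtain ⟨W, hW⟩ := h.exists_fac
    exact hW.lt.le.trans (le_iSup (fun W : {W // Fac Z V W} => W.1) ⟨W, hW⟩)
  apply le_antisymm (iSup_le fun W => W.2.le)
  have h1 : V.map (QuotientGroup.mk' Z) ≤
      (⨆ W : {W // Fac Z V W}, W.1).map (QuotientGroup.mk' Z) := by
    rw [← h.minNor.iSup_minIn h.nonAb]
    refine iSup_le fun S => ?_
    have h2 : Fac Z V (S.1.comap (QuotientGroup.mk' Z)) := by
      rw [fac_iff h.lt.le (le_comap_mk S.1), map_comap_mk]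
      exact S.2
    rw [← map_comap_mk S.1]
    exact Subgroup.map_mono (le_iSup (fun W : {W // Fac Z V W} => W.1) ⟨_, h2⟩)
  have h3 := Subgroup.comap_mono (f := QuotientGroup.mk' Z) h1
  rwa [mem_comap_map h.lt.le, mem_comap_map h0] at h3

/-- `W / Z` is simple. -/
theorem Lay.simple [Finite A] {W : Subgroup A} (hW : Fac Z V W) (N : Subgroup A) (hZN : Z ≤ N)
    (hN : N ≤ W) (hN' : NorBy W N) : N = Z ∨ N = W := by
  have := h.zn
  rcases h.minNor.simple h.nonAb ((fac_iff h.lt.le hW.lt.le).1 hW) _ (Subgroup.map_mono hN)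
    hN'.map with h2 | h2
  · left
    rw [Subgroup.map_eq_bot_iff, QuotientGroup.ker_mk'] at h2
    exact le_antisymm h2 hZN
  · right
    rw [← mem_comap_map hZN, h2, mem_comap_map hW.lt.le]

/-- `W / Z` is not abelian. -/
theorem Lay.fac_na [Finite A] {W : Subgroup A} (hW : Fac Z V W) :
    ∃ x ∈ W, ∃ y ∈ W, x * y * x⁻¹ * y⁻¹ ∉ Z := by
  have := h.zn
  obtain ⟨_, ⟨x, hx, rfl⟩, _, ⟨y, hy, rfl⟩, hxy⟩ :=
    h.minNor.nonAb h.nonAb ((fac_iff h.lt.le hW.lt.le).1 hW)
  refine ⟨x, hx, y, hy, fun h1 => hxy ?_⟩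
  rw [← QuotientGroup.eq_one_iff] at h1
  have h2 : ((x * y * x⁻¹ * y⁻¹ : A) : A ⧸ Z) = (x : A ⧸ Z) * y * (x : A ⧸ Z)⁻¹ * (y : A ⧸ Z)⁻¹ := rfl
  rw [h2] at h1
  show (x : A ⧸ Z) * y = y * x
  have h3 : (x : A ⧸ Z) * y = (x : A ⧸ Z) * y * (x : A ⧸ Z)⁻¹ * (y : A ⧸ Z)⁻¹ * (y * x) := by group
  rw [h3, h1, one_mul]

/-- A subgroup of `W` that contains `Z` and is normal with all commutators of `W` is `W`. -/
theorem Lay.eq_of_comm [Finite A] {W : Subgroup A} (hW : Fac Z V W) (N : Subgroup A)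
    (hZN : Z ≤ N) (hN : N ≤ W) (hc : ∀ x ∈ W, ∀ y ∈ W, x * y * x⁻¹ * y⁻¹ ∈ N) : N = W := by
  rcases h.simple hW N hZN hN (fun g hg x hx => by
    have h1 := hc g hg x (hN hx)
    have h2 : g * x * g⁻¹ = g * x * g⁻¹ * x⁻¹ * x := by group
    rw [h2]
    exact N.mul_mem h1 hx) with h1 | h1
  · exfalso
    obtain ⟨x, hx, y, hy, hxy⟩ := h.fac_na hW
    exact hxy (h1 ▸ hc x hx y hy)
  · exact h1

/-- An element that commutes with the elements of `W` modulo `Z` commutes with them. -/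
theorem Lay.commute_of_mod [Finite A] {W : Subgroup A} (hW : Fac Z V W) (y : A)
    (hy : ∀ x ∈ W, x * y * x⁻¹ * y⁻¹ ∈ Z) : ∀ x ∈ W, x * y = y * x := by
  let N : Subgroup A :=
    { carrier := {x | x ∈ W ∧ x * y = y * x}
      mul_mem' := by
        rintro a b ⟨ha, ha'⟩ ⟨hb, hb'⟩
        refine ⟨W.mul_mem ha hb, ?_⟩
        rw [mul_assoc, hb', ← mul_assoc, ha', mul_assoc]
      one_mem' := ⟨W.one_mem, by rw [one_mul, mul_one]⟩
      inv_mem' := by
        rintro a ⟨ha, ha'⟩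
        refine ⟨W.inv_mem ha, ?_⟩
        calc a⁻¹ * y = a⁻¹ * (y * a) * a⁻¹ := by group
          _ = a⁻¹ * (a * y) * a⁻¹ := by rw [ha']
          _ = y * a⁻¹ := by group }
  have key : N = W := by
    apply h.eq_of_comm hW N
    · intro z hz
      exact ⟨hW.lt.le hz, h.comm hz y⟩
    · exact fun x hx => hx.1
    · intro a ha b hb
      refine ⟨W.mul_mem (W.mul_mem (W.mul_mem ha hb) (W.inv_mem ha)) (W.inv_mem hb), ?_⟩
      -- `x ↦ [x, y]` is a homomorphism to the centre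
      have f1 : ∀ a ∈ W, ∀ b, a * b * y * (a * b)⁻¹ * y⁻¹ =
          (b * y * b⁻¹ * y⁻¹) * (a * y * a⁻¹ * y⁻¹) ∨ b ∉ W := by
        intro a ha b
        by_cases hb : b ∈ W
        · left
          have h1 := h.comm (hy b hb) a
          calc a * b * y * (a * b)⁻¹ * y⁻¹ = a * (b * y * b⁻¹ * y⁻¹) * y * a⁻¹ * y⁻¹ := by group
            _ = (b * y * b⁻¹ * y⁻¹) * a * y * a⁻¹ * y⁻¹ := by rw [h1]
            _ = _ := by group
        · exact Or.inr hb
      have f2 : ∀ a ∈ W, ∀ b ∈ W, a * b * y * (a * b)⁻¹ * y⁻¹ =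
          (b * y * b⁻¹ * y⁻¹) * (a * y * a⁻¹ * y⁻¹) := fun a ha b hb =>
        (f1 a ha b).resolve_right (not_not.2 hb)
      have g1 := f2 a ha b hb
      have g2 := f2 b hb a ha
      have g3 : a * b * y * (a * b)⁻¹ * y⁻¹ = b * a * y * (b * a)⁻¹ * y⁻¹ := by
        rw [g1, g2, h.comm (hy b hb)]
      have g4 := f2 (a * b * a⁻¹ * b⁻¹)
        (W.mul_mem (W.mul_mem (W.mul_mem ha hb) (W.inv_mem ha)) (W.inv_mem hb)) (b * a)
        (W.mul_mem hb ha)
      have e : a * b * a⁻¹ * b⁻¹ * (b * a) = a * b := by group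
      rw [e, g3] at g4
      have g5 : a * b * a⁻¹ * b⁻¹ * y * (a * b * a⁻¹ * b⁻¹)⁻¹ * y⁻¹ = 1 := by
        have := g4
        nth_rewrite 1 [← mul_one (b * a * y * (b * a)⁻¹ * y⁻¹)] at this
        exact (mul_left_cancel this).symm
      have g6 : a * b * a⁻¹ * b⁻¹ * y =
          a * b * a⁻¹ * b⁻¹ * y * (a * b * a⁻¹ * b⁻¹)⁻¹ * y⁻¹ * (y * (a * b * a⁻¹ * b⁻¹)) := by
        group
      rw [g6, g5, one_mul]
  intro x hx
  rw [← key] at hx
  exact hx.2

/-- Different factors commute. -/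
theorem Lay.commute [Finite A] {W W' : Subgroup A} (hW : Fac Z V W) (hW' : Fac Z V W')
    (hne : W ≠ W') : ∀ x ∈ W, ∀ y ∈ W', x * y = y * x := by
  have := h.zn
  intro x hx y hy
  refine h.commute_of_mod hW y (fun x hx => ?_) x hx
  have h1 : W.map (QuotientGroup.mk' Z) ≠ W'.map (QuotientGroup.mk' Z) := by
    intro h2
    apply hne
    rw [← mem_comap_map hW.lt.le, h2, mem_comap_map hW'.lt.le]
  have h3 := ((fac_iff h.lt.le hW.lt.le).1 hW).commute ((fac_iff h.lt.le hW'.lt.le).1 hW') h1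
    _ ⟨x, hx, rfl⟩ _ ⟨y, hy, rfl⟩
  rw [← QuotientGroup.eq_one_iff]
  have h2 : ((x * y * x⁻¹ * y⁻¹ : A) : A ⧸ Z) = (x : A ⧸ Z) * y * (x : A ⧸ Z)⁻¹ * (y : A ⧸ Z)⁻¹ := rfl
  have h4 : (x : A ⧸ Z) * y = y * x := h3
  rw [h2, h4]
  group

/-- The other factors. -/
theorem Lay.commute_others [Finite A] {W : Subgroup A} (hW : Fac Z V W) :
    ∀ x ∈ W, ∀ y ∈ Z ⊔ ⨆ W' : {W' // Fac Z V W' ∧ W' ≠ W}, W'.1, x * y = y * x := by
  intro x hx y hy
  have h1 : (Z ⊔ ⨆ W' : {W' // Fac Z V W' ∧ W' ≠ W}, W'.1) ≤ Subgroup.centralizer {x} := by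
    refine sup_le (fun z hz => ?_) (iSup_le fun T z hz => ?_)
    · rw [Subgroup.mem_centralizer_iff]
      rintro w hw
      rw [Set.mem_singleton_iff] at hw
      rw [hw]
      exact (h.comm hz x).symm
    · rw [Subgroup.mem_centralizer_iff]
      rintro w hw
      rw [Set.mem_singleton_iff] at hw
      rw [hw]
      exact h.commute hW T.2.1 (Ne.symm T.2.2) x hx z hz
  exact Subgroup.mem_centralizer_iff.1 (h1 hy) x rfl

/-- The centralizer of `W` in `W` is `Z`. -/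
theorem Lay.cen_fac [Finite A] {W : Subgroup A} (hW : Fac Z V W) {x : A} (hx : x ∈ W)
    (hc : ∀ y ∈ W, x * y = y * x) : x ∈ Z := by
  let N : Subgroup A := W ⊓ Subgroup.centralizer (W : Set A)
  have hN : N = Z ∨ N = W := by
    apply h.simple hW N
    · intro z hz
      refine ⟨hW.lt.le hz, Subgroup.mem_centralizer_iff.2 fun y _ => (h.comm hz y).symm⟩
    · exact inf_le_left
    · intro g hg y hy
      have h1 := Subgroup.mem_centralizer_iff.1 hy.2 g hg
      have e : g * y * g⁻¹ = y := by rw [h1]; group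
      rw [e]
      exact hy
  have hxN : x ∈ N := ⟨hx, Subgroup.mem_centralizer_iff.2 fun y hy => (hc y hy).symm⟩
  rcases hN with hN | hN
  · rwa [hN] at hxN
  · exfalso
    obtain ⟨a, ha, b, hb, hab⟩ := h.fac_na hW
    rw [← hN] at ha
    have h1 := Subgroup.mem_centralizer_iff.1 ha.2 b hb
    apply hab
    rw [← h1]
    have e : b * a * a⁻¹ * b⁻¹ = 1 := by group
    rw [e]
    exact Z.one_mem

/-- The product of the factors is direct modulo `Z`. -/
theorem Lay.inf_others [Finite A] {W : Subgroup A} (hW : Fac Z V W) :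
    W ⊓ (Z ⊔ ⨆ W' : {W' // Fac Z V W' ∧ W' ≠ W}, W'.1) = Z := by
  apply le_antisymm
  · intro x hx
    refine h.cen_fac hW hx.1 fun y hy => ?_
    exact (h.commute_others hW y hy x hx.2).symm
  · exact le_inf hW.lt.le le_sup_left

/-- `W = Z [W, W]`. -/
theorem Lay.sup_comm [Finite A] {W : Subgroup A} (hW : Fac Z V W) : Z ⊔ ⁅W, W⁆ = W := by
  apply h.eq_of_comm hW
  · exact le_sup_left
  · refine sup_le hW.lt.le ?_
    rw [Subgroup.commutator_le]
    intro a ha b hb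
    exact W.mul_mem (W.mul_mem (W.mul_mem ha hb) (W.inv_mem ha)) (W.inv_mem hb)
  · intro x hx y hy
    exact (le_sup_right : ⁅W, W⁆ ≤ Z ⊔ ⁅W, W⁆) (Subgroup.commutator_mem_commutator hx hy)

theorem Lay.mem_sup_cen {N : Subgroup A} {x : A} (hx : x ∈ Z ⊔ N) : ∃ z ∈ Z, ∃ y ∈ N, z * y = x :=
  mem_sup_of_commute (fun _ hy z _ => (h.comm hy z).symm) x hx

/-- If `W = Z N` then `[W, W] = [N, N]`. -/
theorem Lay.comm_eq {W N : Subgroup A} (hN : Z ⊔ N = W) : ⁅W, W⁆ = ⁅N, N⁆ := by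
  apply le_antisymm
  · rw [Subgroup.commutator_le]
    intro a ha b hb
    rw [← hN] at ha hb
    obtain ⟨z, hz, a', ha', rfl⟩ := h.mem_sup_cen ha
    obtain ⟨w, hw, b', hb', rfl⟩ := h.mem_sup_cen hb
    have e : z * a' * (w * b') * (z * a')⁻¹ * (w * b')⁻¹ = a' * b' * a'⁻¹ * b'⁻¹ := by
      have h1 := h.comm hz
      have h2 := h.comm hw
      calc z * a' * (w * b') * (z * a')⁻¹ * (w * b')⁻¹
          = z * a' * w * b' * a'⁻¹ * z⁻¹ * b'⁻¹ * w⁻¹ := by group
        _ = z * (w * a') * b' * a'⁻¹ * z⁻¹ * b'⁻¹ * w⁻¹ := by rw [h2 a']; group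
        _ = (z * (w * (a' * b' * a'⁻¹))) * z⁻¹ * b'⁻¹ * w⁻¹ := by group
        _ = (w * (a' * b' * a'⁻¹)) * z * z⁻¹ * b'⁻¹ * w⁻¹ := by rw [h1]
        _ = w * (a' * b' * a'⁻¹ * b'⁻¹) * w⁻¹ := by group
        _ = (a' * b' * a'⁻¹ * b'⁻¹) * w * w⁻¹ := by rw [h2]
        _ = a' * b' * a'⁻¹ * b'⁻¹ := by group
    change z * a' * (w * b') * (z * a')⁻¹ * (w * b')⁻¹ ∈ _
    rw [e]
    exact Subgroup.commutator_mem_commutator ha' hb'
  · exact Subgroup.commutator_mono (hN ▸ le_sup_right) (hN ▸ le_sup_right)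

/-- `[W, W]` is perfect. -/
theorem Lay.perfect [Finite A] {W : Subgroup A} (hW : Fac Z V W) : ⁅⁅W, W⁆, ⁅W, W⁆⁆ = ⁅W, W⁆ :=
  (h.comm_eq (h.sup_comm hW)).symm

/-- Every normal subgroup of `E = [W, W]` is `E` or is contained in `Z`. -/
theorem Lay.quasi [Finite A] {W : Subgroup A} (hW : Fac Z V W) (N : Subgroup A)
    (hN : N ≤ ⁅W, W⁆) (hN' : NorBy ⁅W, W⁆ N) : N ≤ Z ∨ N = ⁅W, W⁆ := by
  have hEW : ⁅W, W⁆ ≤ W := (le_sup_right : ⁅W, W⁆ ≤ Z ⊔ ⁅W, W⁆).trans (h.sup_comm hW).le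
  have hNW : NorBy W (Z ⊔ N) := by
    have h1 : NorBy W N := by
      intro g hg x hx
      rw [← h.sup_comm hW] at hg
      obtain ⟨z, hz, e, he, rfl⟩ := h.mem_sup_cen hg
      have h2 : z * e * x * (z * e)⁻¹ = e * x * e⁻¹ := by
        calc z * e * x * (z * e)⁻¹ = z * (e * x * e⁻¹) * z⁻¹ := by group
          _ = (e * x * e⁻¹) * z * z⁻¹ := by rw [h.comm hz]
          _ = e * x * e⁻¹ := by group
      rw [h2]
      exact hN' e he x hx
    exact (norBy_of_cen h.cen).sup h1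
  rcases h.simple hW (Z ⊔ N) le_sup_left (sup_le hW.lt.le (hN.trans hEW)) hNW with h1 | h1
  · left
    exact le_sup_right.trans h1.le
  · right
    apply le_antisymm hN
    rw [h.comm_eq h1, Subgroup.commutator_le]
    intro a ha b hb
    exact N.mul_mem (N.mul_mem (N.mul_mem ha hb) (N.inv_mem ha)) (N.inv_mem hb)

/-- The centralizer of `[W, W]` is the centralizer of `W`. -/
theorem Lay.centralizer_comm [Finite A] {W : Subgroup A} (hW : Fac Z V W) :
    Subgroup.centralizer ((⁅W, W⁆ : Subgroup A) : Set A) = Subgroup.centralizer (W : Set A) := by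
  apply le_antisymm
  · intro x hx
    rw [Subgroup.mem_centralizer_iff] at hx ⊢
    intro y hy
    have hy' : y ∈ W := hy
    rw [← h.sup_comm hW] at hy'
    obtain ⟨z, hz, e, he, rfl⟩ := h.mem_sup_cen hy'
    rw [mul_assoc, hx e he, ← mul_assoc, h.comm hz, mul_assoc]
  · apply Subgroup.centralizer_le
    exact (le_sup_right : ⁅W, W⁆ ≤ Z ⊔ ⁅W, W⁆).trans (h.sup_comm hW).le

/-- The centralizer of `V` in `V` is `Z`. -/
theorem Lay.cen_layer [Finite A] : V ⊓ Subgroup.centralizer (V : Set A) = Z := by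
  have hn : (V ⊓ Subgroup.centralizer (V : Set A)).Normal := by
    have := h.normal
    constructor
    intro c hc g
    refine ⟨this.conj_mem c hc.1 g, ?_⟩
    show g * c * g⁻¹ ∈ Subgroup.centralizer (V : Set A)
    rw [Subgroup.mem_centralizer_iff]
    intro y hy
    have hy' : g⁻¹ * y * g ∈ V := by
      have := this.conj_mem y hy g⁻¹
      rwa [inv_inv] at this
    have h1 := Subgroup.mem_centralizer_iff.1 hc.2 _ hy'
    have e1 : y * (g * c * g⁻¹) = g * (g⁻¹ * y * g * c) * g⁻¹ := by group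
    have e2 : g * c * g⁻¹ * y = g * (c * (g⁻¹ * y * g)) * g⁻¹ := by group
    rw [e1, e2, h1]
  rcases h.min _ hn (le_inf h.lt.le fun z hz => Subgroup.mem_centralizer_iff.2 fun y _ =>
    (h.comm hz y).symm) inf_le_left with h1 | h1
  · exact h1
  · exfalso
    obtain ⟨a, ha, b, hb, hab⟩ := h.na
    rw [← h1] at ha
    have h2 := Subgroup.mem_centralizer_iff.1 ha.2 b hb
    apply hab
    rw [← h2]
    have e : b * a * a⁻¹ * b⁻¹ = 1 := by group
    rw [e]
    exact Z.one_mem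

end main

end Pool.Agent.Lib.P0c8ca5.Jj
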